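import Mathlib
import Pool.Agent.Lib.MP_2ab09f_lc.Model
import Pool.Agent.Lib.MP_2ab09f_lc.Sem

/-!
Backward slices of a run: the part of a schedule that is needed for the histories of some
processors and the contents of some registers.
-/

namespace Pool.Agent.Lib.MP_2ab09f_lc.LB

open Pool.Agent.Lib.MP_2ab09f_lc

variable {ι : Type*} [DecidableEq ι]

/-- the result of slicing: the sublist `K` of needed steps, the sets `X` and `R` of processors and
registers needed at the beginning, the registers `W` written and `A` accessed by needed steps -/
structure SL (ι : Type*) where
  K : List ι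
  X : Finset ι
  R : Finset ℕ
  W : Finset ℕ
  A : Finset ℕ

/-- one step of slicing (going backwards) -/
def sstep (a : Act) (p : ι) (y : SL ι) : SL ι :=
  match a with
  | .read r => if p ∈ y.X then ⟨p :: y.K, y.X, insert r y.R, y.W, insert r y.A⟩ else y
  | .write r _ =>
      if p ∈ y.X ∨ r ∈ y.R then
        ⟨p :: y.K, insert p y.X, y.R.erase r, insert r y.W, insert r y.A⟩ else y
  | .out _ => y

/-- the slice of the schedule `L` run from `c`, for the processors `X` and the registers `R` -/
def slice (P : ι → Prog) (X : Finset ι) (R : Finset ℕ) : Conf ι → List ι → SL ι
  | _, [] => ⟨[], X, R, ∅, ∅⟩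
  | c, p :: L => sstep (P p (c.hist p)) p (slice P X R (step P c p) L)

section basic

variable (P : ι → Prog) (X : Finset ι) (R : Finset ℕ)

@[simp] theorem slice_nil (c : Conf ι) : slice P X R c [] = ⟨[], X, R, ∅, ∅⟩ := rfl
theorem slice_cons (c : Conf ι) (p : ι) (L : List ι) :
    slice P X R c (p :: L) = sstep (P p (c.hist p)) p (slice P X R (step P c p) L) := rfl

@[simp] theorem runFrom_nil (c : Conf ι) : runFrom P c [] = c := rfl
@[simp] theorem runFrom_cons (c : Conf ι) (p : ι) (L : List ι) :
    runFrom P c (p :: L) = runFrom P (step P c p) L := rfl
theorem runFrom_append (c : Conf ι) (L L' : List ι) :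
    runFrom P c (L ++ L') = runFrom P (runFrom P c L) L' := List.foldl_append

theorem sublist_K (c : Conf ι) (L : List ι) : (slice P X R c L).K.Sublist L := by
  induction L generalizing c with
  | nil => exact List.Sublist.refl _
  | cons p L ih =>
    rw [slice_cons]
    have h := ih (step P c p)
    cases P p (c.hist p) with
    | read r =>
      simp only [sstep]
      split
      · exact h.cons_cons p
      · exact h.cons p
    | write r v =>
      simp only [sstep]
      split
      · exact h.cons_cons p
      · exact h.cons p
    | out a => exact h.cons p

theorem subset_X (c : Conf ι) (L : List ι) : X ⊆ (slice P X R c L).X := by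
  induction L generalizing c with
  | nil => exact Finset.Subset.refl _
  | cons p L ih =>
    rw [slice_cons]
    have h := ih (step P c p)
    cases P p (c.hist p) with
    | read r =>
      simp only [sstep]
      split
      · exact h
      · exact h
    | write r v =>
      simp only [sstep]
      split
      · exact h.trans (Finset.subset_insert _ _)
      · exact h
    | out a => exact h

theorem mem_X (c : Conf ι) (L : List ι) {q : ι} (hq : q ∈ (slice P X R c L).X) :
    q ∈ X ∨ q ∈ L := by
  induction L generalizing c with
  | nil => exact Or.inl hq
  | cons p L ih =>
    rw [slice_cons] at hq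
    have h := ih (step P c p)
    have h2 : q ∈ (slice P X R (step P c p) L).X → q ∈ X ∨ q ∈ p :: L := by
      intro h3
      rcases h h3 with h4 | h4
      · exact Or.inl h4
      · exact Or.inr (List.mem_cons_of_mem _ h4)
    cases hact : P p (c.hist p) with
    | read r =>
      rw [hact] at hq
      simp only [sstep] at hq
      split at hq
      · exact h2 hq
      · exact h2 hq
    | write r v =>
      rw [hact] at hq
      simp only [sstep] at hq
      split at hq
      · rcases Finset.mem_insert.1 hq with h3 | h3
        · rw [h3]; exact Or.inr List.mem_cons_self
        · exact h2 h3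
      · exact h2 hq
    | out a =>
      rw [hact] at hq
      exact h2 hq

theorem mem_K_X (c : Conf ι) (L : List ι) {q : ι} (hq : q ∈ (slice P X R c L).K) :
    q ∈ (slice P X R c L).X := by
  induction L generalizing c with
  | nil => simp at hq
  | cons p L ih =>
    rw [slice_cons] at hq ⊢
    have h := ih (step P c p)
    cases hact : P p (c.hist p) with
    | read r =>
      rw [hact] at hq
      simp only [sstep] at hq ⊢
      split at hq
      · rename_i hp
        rw [if_pos hp]
        rcases List.mem_cons.1 hq with h3 | h3
        · rw [h3]; exact hp
        · exact h h3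
      · rename_i hp
        rw [if_neg hp]
        exact h hq
    | write r v =>
      rw [hact] at hq
      simp only [sstep] at hq ⊢
      split at hq
      · rename_i hp
        rw [if_pos hp]
        rcases List.mem_cons.1 hq with h3 | h3
        · rw [h3]; exact Finset.mem_insert_self _ _
        · exact Finset.mem_insert_of_mem (h h3)
      · rename_i hp
        rw [if_neg hp]
        exact h hq
    | out a =>
      rw [hact] at hq
      exact h hq

theorem card_A_le (c : Conf ι) (L : List ι) :
    (slice P X R c L).A.card ≤ (slice P X R c L).K.length := by
  induction L generalizing c with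
  | nil => simp
  | cons p L ih =>
    rw [slice_cons]
    have h := ih (step P c p)
    cases P p (c.hist p) with
    | read r =>
      simp only [sstep]
      split
      · simp only [List.length_cons]
        exact (Finset.card_insert_le _ _).trans (by omega)
      · exact h
    | write r v =>
      simp only [sstep]
      split
      · simp only [List.length_cons]
        exact (Finset.card_insert_le _ _).trans (by omega)
      · exact h
    | out a => exact h

theorem length_K_le (c : Conf ι) {L : List ι} (hL : L.Nodup) :
    (slice P X R c L).K.length ≤ (slice P X R c L).X.card := by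
  have h1 : (slice P X R c L).K.Nodup := hL.sublist (sublist_K P X R c L)
  rw [← List.toFinset_card_of_nodup h1]
  apply Finset.card_le_card
  intro q hq
  exact mem_K_X P X R c L (List.mem_toFinset.1 hq)

theorem W_subset_A (c : Conf ι) (L : List ι) : (slice P X R c L).W ⊆ (slice P X R c L).A := by
  induction L generalizing c with
  | nil => simp
  | cons p L ih =>
    rw [slice_cons]
    have h := ih (step P c p)
    cases P p (c.hist p) with
    | read r =>
      simp only [sstep]
      split
      · exact h.trans (Finset.subset_insert _ _)
      · exact h
    | write r v =>
      simp only [sstep]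
      split
      · exact Finset.insert_subset_insert _ h
      · exact h
    | out a => exact h

theorem mem_R (c : Conf ι) (L : List ι) {r : ℕ} (hr : r ∈ (slice P X R c L).R) :
    r ∈ R ∨ r ∈ (slice P X R c L).A := by
  induction L generalizing c with
  | nil => exact Or.inl hr
  | cons p L ih =>
    rw [slice_cons] at hr ⊢
    have h := ih (step P c p)
    cases hact : P p (c.hist p) with
    | read r' =>
      rw [hact] at hr
      simp only [sstep] at hr ⊢
      split at hr
      · rename_i hp
        rw [if_pos hp]
        rcases Finset.mem_insert.1 hr with h3 | h3
        · rw [h3]; exact Or.inr (Finset.mem_insert_self _ _)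
        · exact (h h3).imp_right Finset.mem_insert_of_mem
      · rename_i hp
        rw [if_neg hp]
        exact h hr
    | write r' v =>
      rw [hact] at hr
      simp only [sstep] at hr ⊢
      split at hr
      · rename_i hp
        rw [if_pos hp]
        exact (h (Finset.mem_of_mem_erase hr)).imp_right Finset.mem_insert_of_mem
      · rename_i hp
        rw [if_neg hp]
        exact h hr
    | out a =>
      rw [hact] at hr
      exact h hr

/-- the number of needed processors plus the number of needed registers increases at most by the
number of needed processors which take steps -/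
theorem potential (c : Conf ι) {L : List ι} (hL : L.Nodup) :
    (slice P X R c L).X.card + (slice P X R c L).R.card ≤
      X.card + R.card + (X.filter (· ∈ L)).card := by
  induction L generalizing c with
  | nil => simp
  | cons p L ih =>
    rw [List.nodup_cons] at hL
    rw [slice_cons]
    have h := ih (step P c p) hL.2
    have h0 : (X.filter (· ∈ L)).card ≤ (X.filter (· ∈ p :: L)).card := by
      apply Finset.card_le_card
      intro q hq
      rw [Finset.mem_filter] at hq ⊢
      exact ⟨hq.1, List.mem_cons_of_mem _ hq.2⟩
    cases P p (c.hist p) with
    | read r =>
      simp only [sstep]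
      split
      · rename_i hp
        have h1 : p ∈ X := by
          rcases mem_X P X R _ _ hp with h2 | h2
          · exact h2
          · exact absurd h2 hL.1
        have h2 : (X.filter (· ∈ L)).card + 1 ≤ (X.filter (· ∈ p :: L)).card := by
          have h3 : p ∉ X.filter (· ∈ L) := by
            rw [Finset.mem_filter]
            intro h4
            exact hL.1 h4.2
          rw [← Finset.card_insert_of_notMem h3]
          apply Finset.card_le_card
          intro q hq
          rw [Finset.mem_insert, Finset.mem_filter] at hq
          rw [Finset.mem_filter]
          rcases hq with h4 | h4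
          · rw [h4]; exact ⟨h1, List.mem_cons_self⟩
          · exact ⟨h4.1, List.mem_cons_of_mem _ h4.2⟩
        have h3 := Finset.card_insert_le r (slice P X R (step P c p) L).R
        simp only
        omega
      · omega
    | write r v =>
      simp only [sstep]
      split
      · rename_i hp
        simp only
        by_cases hpX : p ∈ (slice P X R (step P c p) L).X
        · rw [Finset.insert_eq_of_mem hpX]
          have := Finset.card_erase_le (s := (slice P X R (step P c p) L).R) (a := r)
          omega
        · have hr : r ∈ (slice P X R (step P c p) L).R := hp.resolve_left hpX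
          rw [Finset.card_insert_of_notMem hpX, Finset.card_erase_of_mem hr]
          have : 0 < (slice P X R (step P c p) L).R.card := Finset.card_pos.2 ⟨r, hr⟩
          omega
      · omega
    | out a =>
      simp only [sstep]
      omega

end basic

/-! ### Correctness -/

theorem step_hist_of_ne (P : ι → Prog) (c : Conf ι) {p q : ι} (h : q ≠ p) :
    (step P c p).hist q = c.hist q := by
  unfold step
  cases P p (c.hist p) <;> simp [Function.update_of_ne h]

theorem runFrom_hist_of_notMem (P : ι → Prog) (c : Conf ι) {L : List ι} {q : ι} (h : q ∉ L) :
    (runFrom P c L).hist q = c.hist q := by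
  induction L generalizing c with
  | nil => rfl
  | cons p L ih =>
    rw [List.mem_cons, not_or] at h
    rw [runFrom_cons, ih _ h.2, step_hist_of_ne P c h.1]

/-- the sliced schedule, run from a configuration agreeing on what is needed -/
theorem slice_correct (P : ι → Prog) (X : Finset ι) (R : Finset ℕ) (c c' : Conf ι) (L : List ι)
    (hX : ∀ q ∈ (slice P X R c L).X, c'.hist q = c.hist q)
    (hR : ∀ r ∈ (slice P X R c L).R, c'.mem r = c.mem r) :
    (∀ q ∈ X, (runFrom P c' (slice P X R c L).K).hist q = (runFrom P c L).hist q) ∧
    (∀ r ∈ R, (runFrom P c' (slice P X R c L).K).mem r = (runFrom P c L).mem r) ∧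
    ∀ r, r ∉ (slice P X R c L).W → (runFrom P c' (slice P X R c L).K).mem r = c'.mem r := by
  induction L generalizing c c' with
  | nil => exact ⟨hX, hR, fun r _ => rfl⟩
  | cons p L ih =>
    rw [slice_cons] at hX hR ⊢
    rw [runFrom_cons]
    have h := ih (step P c p)
    cases hact : P p (c.hist p) with
    | read r =>
      rw [hact] at hX hR
      simp only [sstep] at hX hR ⊢
      by_cases hp : p ∈ (slice P X R (step P c p) L).X
      · rw [if_pos hp] at hX hR ⊢
        simp only at hX hR ⊢
        rw [runFrom_cons]
        have hact' : P p (c'.hist p) = .read r := by rw [hX p hp]; exact hact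
        have hm : c'.mem r = c.mem r := hR r (Finset.mem_insert_self _ _)
        have e1 : step P c' p = ⟨c'.mem, Function.update c'.hist p (c'.hist p ++ [c'.mem r])⟩ := by
          unfold step; rw [hact']
        have e2 : step P c p = ⟨c.mem, Function.update c.hist p (c.hist p ++ [c.mem r])⟩ := by
          unfold step; rw [hact]
        have h1 := h (step P c' p) ?_ ?_
        · refine ⟨h1.1, h1.2.1, ?_⟩
          intro r' hr'
          rw [h1.2.2 r' hr', e1]
        · intro q hq
          rw [e1, e2]
          by_cases hqp : q = p
          · subst hqp
            simp only [Function.update_self]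
            rw [hX q hp, hm]
          · simp only [Function.update_of_ne hqp]
            exact hX q hq
        · intro r' hr'
          rw [e1, e2]
          exact hR r' (Finset.mem_insert_of_mem hr')
      · rw [if_neg hp] at hX hR ⊢
        refine h c' ?_ ?_
        · intro q hq
          have hqp : q ≠ p := by
            rintro rfl
            exact hp hq
          rw [hX q hq, step_hist_of_ne P c hqp]
        · intro r' hr'
          rw [hR r' hr']
          unfold step
          rw [hact]
    | write r v =>
      rw [hact] at hX hR
      simp only [sstep] at hX hR ⊢
      by_cases hp : p ∈ (slice P X R (step P c p) L).X ∨ r ∈ (slice P X R (step P c p) L).R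
      · rw [if_pos hp] at hX hR ⊢
        simp only at hX hR ⊢
        rw [runFrom_cons]
        have hpc : c'.hist p = c.hist p := hX p (Finset.mem_insert_self _ _)
        have hact' : P p (c'.hist p) = .write r v := by rw [hpc]; exact hact
        have e1 : step P c' p = ⟨Function.update c'.mem r v,
            Function.update c'.hist p (c'.hist p ++ [0])⟩ := by
          unfold step; rw [hact']
        have e2 : step P c p = ⟨Function.update c.mem r v,
            Function.update c.hist p (c.hist p ++ [0])⟩ := by
          unfold step; rw [hact]
        have h1 := h (step P c' p) ?_ ?_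
        · refine ⟨h1.1, h1.2.1, ?_⟩
          intro r' hr'
          rw [Finset.mem_insert, not_or] at hr'
          rw [h1.2.2 r' hr'.2, e1]
          simp only [Function.update_of_ne hr'.1]
        · intro q hq
          rw [e1, e2]
          by_cases hqp : q = p
          · subst hqp
            simp only [Function.update_self]
            rw [hpc]
          · simp only [Function.update_of_ne hqp]
            exact hX q (Finset.mem_insert_of_mem hq)
        · intro r' hr'
          rw [e1, e2]
          by_cases hrr : r' = r
          · subst hrr
            simp only [Function.update_self]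
          · simp only [Function.update_of_ne hrr]
            exact hR r' (Finset.mem_erase.2 ⟨hrr, hr'⟩)
      · rw [if_neg hp] at hX hR ⊢
        rw [not_or] at hp
        refine h c' ?_ ?_
        · intro q hq
          have hqp : q ≠ p := by
            rintro rfl
            exact hp.1 hq
          rw [hX q hq, step_hist_of_ne P c hqp]
        · intro r' hr'
          have hrr : r' ≠ r := by
            rintro rfl
            exact hp.2 hr'
          rw [hR r' hr']
          unfold step
          rw [hact]
          simp only [Function.update_of_ne hrr]
    | out a =>
      rw [hact] at hX hR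
      simp only [sstep] at hX hR ⊢
      have e2 : step P c p = c := by
        unfold step; rw [hact]
      rw [e2] at hX hR h ⊢
      exact h c' hX hR

/-- no step of the schedule `L` run from `c` writes register `r` -/
def NoWrite (P : ι → Prog) (c : Conf ι) (L : List ι) (r : ℕ) : Prop :=
  ∀ L₁ p L₂ v, L = L₁ ++ p :: L₂ → P p ((runFrom P c L₁).hist p) ≠ .write r v

theorem noWrite_nil (P : ι → Prog) (c : Conf ι) (r : ℕ) : NoWrite P c [] r := by
  intro L₁ p L₂ v h
  have := congrArg List.length h
  simp at this

theorem noWrite_cons {P : ι → Prog} {c : Conf ι} {p : ι} {L : List ι} {r : ℕ}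
    (h1 : ∀ v, P p (c.hist p) ≠ .write r v) (h2 : NoWrite P (step P c p) L r) :
    NoWrite P c (p :: L) r := by
  intro L₁ q L₂ v h
  cases L₁ with
  | nil =>
    simp only [List.nil_append, List.cons.injEq] at h
    rw [← h.1]
    exact h1 v
  | cons p' L₁ =>
    simp only [List.cons_append, List.cons.injEq] at h
    rw [← h.1, runFrom_cons]
    exact h2 L₁ q L₂ v h.2

/-- Where the need for a register comes from. -/
theorem demand (P : ι → Prog) (X : Finset ι) (R : Finset ℕ) (c : Conf ι) (L : List ι) {r : ℕ}
    (hr : r ∈ (slice P X R c L).R) :
    (r ∈ R ∧ NoWrite P c L r) ∨
    ∃ L₁ p L₂, L = L₁ ++ p :: L₂ ∧ (p ∈ X ∨ p ∈ L₂) ∧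
      P p ((runFrom P c L₁).hist p) = .read r ∧ NoWrite P c L₁ r := by
  induction L generalizing c with
  | nil => exact Or.inl ⟨hr, noWrite_nil P c r⟩
  | cons p L ih =>
    rw [slice_cons] at hr
    have key : (∀ v, P p (c.hist p) ≠ .write r v) → r ∈ (slice P X R (step P c p) L).R →
        (r ∈ R ∧ NoWrite P c (p :: L) r) ∨
        ∃ L₁ q L₂, p :: L = L₁ ++ q :: L₂ ∧ (q ∈ X ∨ q ∈ L₂) ∧
          P q ((runFrom P c L₁).hist q) = .read r ∧ NoWrite P c L₁ r := by
      intro hw h
      rcases ih (step P c p) h with ⟨h1, h2⟩ | ⟨L₁, q, L₂, h1, h2, h3, h4⟩
      · exact Or.inl ⟨h1, noWrite_cons hw h2⟩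
      · exact Or.inr ⟨p :: L₁, q, L₂, by rw [h1]; rfl, h2, h3, noWrite_cons hw h4⟩
    cases hact : P p (c.hist p) with
    | read r' =>
      rw [hact] at hr
      simp only [sstep] at hr
      by_cases hp : p ∈ (slice P X R (step P c p) L).X
      · rw [if_pos hp] at hr
        rcases Finset.mem_insert.1 hr with h | h
        · subst h
          right
          exact ⟨[], p, L, rfl, mem_X P X R _ _ hp, hact, noWrite_nil P c r⟩
        · exact key (by rw [hact]; intro v h; cases h) h
      · rw [if_neg hp] at hr
        exact key (by rw [hact]; intro v h; cases h) hr
    | write r' v' =>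
      rw [hact] at hr
      simp only [sstep] at hr
      by_cases hp : p ∈ (slice P X R (step P c p) L).X ∨ r' ∈ (slice P X R (step P c p) L).R
      · rw [if_pos hp] at hr
        simp only [Finset.mem_erase] at hr
        refine key ?_ hr.2
        rw [hact]
        intro v h
        injection h with h1 h2
        exact hr.1 h1.symm
      · rw [if_neg hp] at hr
        rw [not_or] at hp
        refine key ?_ hr
        rw [hact]
        intro v h
        injection h with h1 h2
        rw [h1] at hp
        exact hp.2 hr
    | out a =>
      rw [hact] at hr
      exact key (by rw [hact]; intro v h; cases h) hr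

/-- Registers written by needed steps are written by steps of the schedule. -/
theorem mem_W (P : ι → Prog) (X : Finset ι) (R : Finset ℕ) (c : Conf ι) (L : List ι) {r : ℕ}
    (hr : r ∈ (slice P X R c L).W) :
    ∃ L₁ p L₂ v, L = L₁ ++ p :: L₂ ∧ P p ((runFrom P c L₁).hist p) = .write r v := by
  induction L generalizing c with
  | nil => simp at hr
  | cons p L ih =>
    rw [slice_cons] at hr
    have key : r ∈ (slice P X R (step P c p) L).W →
        ∃ L₁ q L₂ v, p :: L = L₁ ++ q :: L₂ ∧ P q ((runFrom P c L₁).hist q) = .write r v := by
      intro h
      obtain ⟨L₁, q, L₂, v, h1, h2⟩ := ih (step P c p) h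
      exact ⟨p :: L₁, q, L₂, v, by rw [h1]; rfl, h2⟩
    cases hact : P p (c.hist p) with
    | read r' =>
      rw [hact] at hr
      simp only [sstep] at hr
      split at hr
      · exact key hr
      · exact key hr
    | write r' v' =>
      rw [hact] at hr
      simp only [sstep] at hr
      split at hr
      · rcases Finset.mem_insert.1 hr with h | h
        · subst h
          exact ⟨[], p, L, v', rfl, hact⟩
        · exact key h
      · exact key hr
    | out a =>
      rw [hact] at hr
      exact key hr

end Pool.Agent.Lib.MP_2ab09f_lc.LB
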