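import Mathlib
import Pool.Agent.Lib.MP_2ab09f_lc.LB.Slice

/-!
The schedule of a cluster of processors, and what its slice needs.
-/

namespace Pool.Agent.Lib.MP_2ab09f_lc.LB

open Pool.Agent.Lib.MP_2ab09f_lc

variable {ι : Type*} [DecidableEq ι]

/-- `U t s` (`t ≤ s ≤ k`) are the processors of class larger than `t`, together with those of
class `t` which are disposed of before stage `s`. -/
structure Chain (k : ℕ) (U : ℕ → ℕ → Finset ι) (root : ι) : Prop where
  mono : ∀ t s, t ≤ s → s < k → U t s ⊆ U t (s + 1)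
  top : ∀ t, t + 1 < k → U (t + 1) k = U t t
  root : ∀ t, t < k → root ∈ U t t

/-- the processors of class `t` disposed of at stage `s` -/
def grp (U : ℕ → ℕ → Finset ι) (t s : ℕ) : Finset ι := U t (s + 1) \ U t s

/-- the disposable part of stage `s` -/
noncomputable def gpt (U : ℕ → ℕ → Finset ι) (s : ℕ) : List ι :=
  (List.range (s + 1)).flatMap fun t => (grp U t s).toList

/-- stage `s` of the schedule -/
noncomputable def stg (U : ℕ → ℕ → Finset ι) (s : ℕ) : List ι := gpt U s ++ (U s s).toList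

/-- the schedule before stage `s` -/
noncomputable def pre (U : ℕ → ℕ → Finset ι) : ℕ → List ι
  | 0 => []
  | s + 1 => pre U s ++ stg U s

section chain

variable {k : ℕ} {U : ℕ → ℕ → Finset ι} {root : ι}

theorem mem_gpt {s : ℕ} {p : ι} : p ∈ gpt U s ↔ ∃ t ≤ s, p ∈ grp U t s := by
  simp only [gpt, List.mem_flatMap, List.mem_range, Finset.mem_toList]
  constructor
  · rintro ⟨t, h1, h2⟩
    exact ⟨t, by omega, h2⟩
  · rintro ⟨t, h1, h2⟩
    exact ⟨t, by omega, h2⟩

theorem mem_stg {s : ℕ} {p : ι} : p ∈ stg U s ↔ (∃ t ≤ s, p ∈ grp U t s) ∨ p ∈ U s s := by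
  rw [stg, List.mem_append, mem_gpt, Finset.mem_toList]

theorem Chain.mono' (h : Chain k U root) {t s s' : ℕ} (h1 : t ≤ s) (h2 : s ≤ s') (h3 : s' ≤ k) :
    U t s ⊆ U t s' := by
  induction s', h2 using Nat.le_induction with
  | base => exact Finset.Subset.refl _
  | succ s' h2 ih => exact (ih (by omega)).trans (h.mono t s' (by omega) (by omega))

theorem Chain.desc (h : Chain k U root) {t t' s' : ℕ} (h1 : t < t') (h2 : t' ≤ s')
    (h3 : s' ≤ k) (h4 : t' < k) : U t' s' ⊆ U t t := by
  induction t', h1 using Nat.le_induction generalizing s' with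
  | base => 
    rw [← h.top t h4]
    exact h.mono' h2 h3 le_rfl
  | succ t' h1 ih =>
    refine Finset.Subset.trans ?_ (ih le_rfl (by omega) (by omega))
    rw [← h.top t' h4]
    exact h.mono' h2 h3 le_rfl

/-- the processors of class larger than `s` are among those of class at least `t` -/
theorem Chain.diag (h : Chain k U root) {t s : ℕ} (h1 : t ≤ s) (h2 : s < k) : U s s ⊆ U t t := by
  rcases h1.eq_or_lt with h3 | h3
  · rw [h3]
  · exact h.desc h3 le_rfl h2.le h2

theorem Chain.grp_disj_U (h : Chain k U root) {t s s' : ℕ} (h1 : t ≤ s) (h2 : s < k)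
    (h3 : t ≤ s') (h4 : s' < k) {p : ι} (hp : p ∈ grp U t s) : p ∉ U s' s' := by
  intro h5
  have h6 : p ∈ U t s := h.mono' le_rfl h1 h2.le (h.diag h3 h4 h5)
  exact (Finset.mem_sdiff.1 hp).2 h6

theorem Chain.grp_disj (h : Chain k U root) {t s t' s' : ℕ} (h1 : t ≤ s) (h2 : s < k)
    (h3 : t' ≤ s') (h4 : s' < k) {p : ι} (hp : p ∈ grp U t s) (hp' : p ∈ grp U t' s') :
    t = t' ∧ s = s' := by
  have key : ∀ {t s t' s' : ℕ}, t ≤ s → s < k → t' ≤ s' → s' < k → p ∈ grp U t s →
      p ∈ grp U t' s' → ¬ t < t' := by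
    intro t s t' s' h1 h2 h3 h4 hp hp' h5
    have h6 : p ∈ U t t := h.desc h5 (by omega : t' ≤ s' + 1) (by omega) (by omega)
      (Finset.mem_sdiff.1 hp').1
    exact h.grp_disj_U h1 h2 le_rfl (by omega) hp h6
  have e1 : t = t' := by
    have := key h1 h2 h3 h4 hp hp'
    have := key h3 h4 h1 h2 hp' hp
    omega
  subst e1
  refine ⟨rfl, ?_⟩
  rcases lt_trichotomy s s' with h5 | h5 | h5
  · exfalso
    have h6 : p ∈ U t s' := h.mono' (by omega : t ≤ s + 1) h5 h4.le (Finset.mem_sdiff.1 hp).1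
    exact (Finset.mem_sdiff.1 hp').2 h6
  · exact h5
  · exfalso
    have h6 : p ∈ U t s := h.mono' (by omega : t ≤ s' + 1) h5 h2.le (Finset.mem_sdiff.1 hp').1
    exact (Finset.mem_sdiff.1 hp).2 h6

/-- a disposable processor is idle from stage `t` on, except for stage `s` -/
theorem Chain.idle (h : Chain k U root) {t s s' : ℕ} (h1 : t ≤ s) (h2 : s < k)
    (h3 : t ≤ s') (h4 : s' < k) (h5 : s' ≠ s) {p : ι} (hp : p ∈ grp U t s) : p ∉ stg U s' := by
  rw [mem_stg]
  rintro (⟨t', h6, h7⟩ | h6)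
  · exact h5 (h.grp_disj h1 h2 h6 h4 hp h7).2.symm
  · exact h.grp_disj_U h1 h2 h3 h4 hp h6

theorem Chain.nodup (h : Chain k U root) {s : ℕ} (hs : s < k) : (stg U s).Nodup := by
  rw [stg, List.nodup_append]
  refine ⟨?_, Finset.nodup_toList _, ?_⟩
  · rw [gpt, List.nodup_flatMap]
    refine ⟨fun t _ => Finset.nodup_toList _, ?_⟩
    refine List.Pairwise.imp_of_mem (R := fun a b => a ≠ b) ?_ List.nodup_range
    intro a b ha hb hab
    rw [List.mem_range] at ha hb
    rw [Function.onFun, List.disjoint_left]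
    intro p hp hp'
    rw [Finset.mem_toList] at hp hp'
    exact hab (h.grp_disj (by omega) hs (by omega) hs hp hp').1
  · intro p hp q hq hpq
    subst hpq
    rw [mem_gpt] at hp
    obtain ⟨t, ht, hp⟩ := hp
    exact h.grp_disj_U ht hs ht hs hp (Finset.mem_toList.1 hq)

theorem run_pre_succ (P : ι → Prog) (s : ℕ) :
    run P (pre U (s + 1)) = runFrom P (run P (pre U s)) (stg U s) := by
  simp only [run, runFrom, pre, List.foldl_append]

theorem hist_pre_eq (P : ι → Prog) {t s : ℕ} (h1 : t ≤ s) {p : ι}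
    (h : ∀ s', t ≤ s' → s' < s → p ∉ stg U s') :
    (run P (pre U s)).hist p = (run P (pre U t)).hist p := by
  induction s, h1 using Nat.le_induction with
  | base => rfl
  | succ s h1 ih =>
    rw [run_pre_succ, runFrom_hist_of_notMem P _ (h s h1 (by omega))]
    exact ih (fun s' h2 h3 => h s' h2 (by omega))

/-- the `t`-th action of processor `p` (after stage `t - 1`) -/
noncomputable def act (P : ι → Prog) (U : ℕ → ℕ → Finset ι) (t : ℕ) (p : ι) : Act :=
  P p ((run P (pre U t)).hist p)

/-- the action taken at a given place of stage `s` -/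
theorem Chain.act_eq (h : Chain k U root) (P : ι → Prog) {s : ℕ} (hs : s < k)
    {L₁ L₂ : List ι} {p : ι} (hL : stg U s = L₁ ++ p :: L₂) :
    (∃ t ≤ s, p ∈ grp U t s ∧
      P p ((runFrom P (run P (pre U s)) L₁).hist p) = act P U t p) ∨
    (p ∈ U s s ∧ P p ((runFrom P (run P (pre U s)) L₁).hist p) = act P U s p) := by
  have hnd := h.nodup hs
  have hp1 : p ∉ L₁ := by
    rw [hL, List.nodup_append] at hnd
    intro h2
    exact hnd.2.2 p h2 p List.mem_cons_self rfl
  have hp : p ∈ stg U s := by rw [hL]; simp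
  rw [runFrom_hist_of_notMem P _ hp1]
  rcases mem_stg.1 hp with ⟨t, ht, hpt⟩ | hps
  · left
    refine ⟨t, ht, hpt, ?_⟩
    unfold act
    rw [hist_pre_eq P ht]
    intro s' h1 h2
    exact h.idle ht hs h1 (by omega) (by omega) hpt
  · exact Or.inr ⟨hps, rfl⟩

/-- all disposable steps of stage `s` precede the step of a processor of class larger than `s` -/
theorem Chain.mem_before (h : Chain k U root) {s t : ℕ} (hs : s < k) (ht : t ≤ s)
    {L₁ L₂ : List ι} {q : ι} (hL : stg U s = L₁ ++ q :: L₂) (hq : q ∈ U s s) {p : ι}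
    (hp : p ∈ grp U t s) : p ∈ L₁ := by
  have hpg : p ∈ gpt U s := mem_gpt.2 ⟨t, ht, hp⟩
  have hqg : q ∉ gpt U s := by
    intro h1
    obtain ⟨t', ht', h2⟩ := mem_gpt.1 h1
    exact h.grp_disj_U ht' hs ht' hs h2 hq
  rw [stg, List.append_eq_append_iff] at hL
  rcases hL with ⟨a, h1, h2⟩ | ⟨c, h1, h2⟩
  · rw [h1]
    exact List.mem_append_left _ hpg
  · cases c with
    | nil =>
      rw [List.append_nil] at h1
      rw [← h1]
      exact hpg
    | cons x c =>
      exfalso
      simp only [List.cons_append, List.cons.injEq] at h2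
      apply hqg
      rw [h1, ← h2.1]
      simp

/-- a disposable write before the step of a processor of class larger than `s` -/
theorem Chain.not_noWrite (h : Chain k U root) (P : ι → Prog) {s t : ℕ} (hs : s < k) (ht : t ≤ s)
    {L₁ L₂ : List ι} {q : ι} (hL : stg U s = L₁ ++ q :: L₂) (hq : q ∈ U s s) {p : ι}
    (hp : p ∈ grp U t s) {r v : ℕ} (hw : act P U t p = .write r v) :
    ¬ NoWrite P (run P (pre U s)) L₁ r := by
  have h1 := h.mem_before hs ht hL hq hp
  obtain ⟨A, B, hAB⟩ := List.append_of_mem h1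
  intro h2
  have h3 := h2 A p B v hAB
  apply h3
  have hL2 : stg U s = A ++ p :: (B ++ q :: L₂) := by
    rw [hL, hAB]
    simp
  rcases h.act_eq P hs hL2 with ⟨t', ht', h4, h5⟩ | ⟨h4, h5⟩
  · have h6 := (h.grp_disj ht hs ht' hs hp h4).1
    subst h6
    rw [h5, hw]
  · exact absurd h4 (h.grp_disj_U ht hs ht hs hp)

/-! ### What is needed -/

/-- what is needed `d` stages before the end -/
noncomputable def ned (P : ι → Prog) (U : ℕ → ℕ → Finset ι) (k : ℕ) (root : ι) : ℕ → SL ι
  | 0 => ⟨[], {root}, ∅, ∅, ∅⟩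
  | d + 1 => slice P (ned P U k root d).X (ned P U k root d).R
      (run P (pre U (k - (d + 1)))) (stg U (k - (d + 1)))

/-- what is needed before stage `s` -/
noncomputable def nd (P : ι → Prog) (U : ℕ → ℕ → Finset ι) (k : ℕ) (root : ι) (s : ℕ) : SL ι :=
  ned P U k root (k - s)

theorem nd_top (P : ι → Prog) (U : ℕ → ℕ → Finset ι) (k : ℕ) (root : ι) :
    nd P U k root k = ⟨[], {root}, ∅, ∅, ∅⟩ := by
  rw [nd, Nat.sub_self]
  rfl

theorem nd_of_lt (P : ι → Prog) (U : ℕ → ℕ → Finset ι) {k : ℕ} (root : ι) {s : ℕ} (hs : s < k) :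
    nd P U k root s = slice P (nd P U k root (s + 1)).X (nd P U k root (s + 1)).R
      (run P (pre U s)) (stg U s) := by
  unfold nd
  have h1 : k - s = (k - (s + 1)) + 1 := by omega
  rw [h1, ned]
  have h2 : k - (k - (s + 1) + 1) = s := by omega
  rw [h2]

theorem Chain.card_le (h : Chain k U root) (P : ι → Prog) {s : ℕ} (hs : s ≤ k) :
    (nd P U k root s).X.card + (nd P U k root s).R.card ≤ 2 ^ (k - s) := by
  obtain ⟨d, hd⟩ : ∃ d, d = k - s := ⟨_, rfl⟩
  induction d generalizing s with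
  | zero =>
    have : s = k := by omega
    subst this
    rw [nd_top]
    simp
  | succ d ih =>
    have hs' : s < k := by omega
    have h1 := ih (s := s + 1) (by omega) (by omega)
    rw [nd_of_lt P U root hs']
    have h2 := potential P (nd P U k root (s + 1)).X (nd P U k root (s + 1)).R
      (run P (pre U s)) (h.nodup hs')
    have h3 := Finset.card_filter_le (nd P U k root (s + 1)).X (· ∈ stg U s)
    have h4 : 2 ^ (k - s) = 2 * 2 ^ (k - (s + 1)) := by
      rw [← pow_succ']
      congr 1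
      omega
    omega

theorem Chain.card_A_le (h : Chain k U root) (P : ι → Prog) {s : ℕ} (hs : s < k) :
    (nd P U k root s).A.card ≤ 2 ^ (k - s) := by
  have h1 := h.card_le P hs.le
  rw [nd_of_lt P U root hs] at h1 ⊢
  have h2 := LB.card_A_le P (nd P U k root (s + 1)).X (nd P U k root (s + 1)).R
    (run P (pre U s)) (stg U s)
  have h3 := length_K_le P (nd P U k root (s + 1)).X (nd P U k root (s + 1)).R
    (run P (pre U s)) (h.nodup hs)
  omega

/-- the registers accessed by needed steps -/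
noncomputable def Acc (P : ι → Prog) (U : ℕ → ℕ → Finset ι) (k : ℕ) (root : ι) : Finset ℕ :=
  (Finset.range k).biUnion fun s => (nd P U k root s).A

theorem Chain.card_Acc_le (h : Chain k U root) (P : ι → Prog) :
    (Acc P U k root).card ≤ 2 ^ (k + 1) := by
  unfold Acc
  refine Finset.card_biUnion_le.trans ?_
  calc ∑ s ∈ Finset.range k, (nd P U k root s).A.card
      ≤ ∑ s ∈ Finset.range k, 2 ^ (k - s) :=
        Finset.sum_le_sum fun s hs => h.card_A_le P (Finset.mem_range.1 hs)
    _ ≤ 2 ^ (k + 1) := by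
        clear h
        induction k with
        | zero => simp
        | succ k ih =>
          rw [Finset.sum_range_succ']
          have : ∀ s, k + 1 - (s + 1) = k - s := by intro s; omega
          simp only [this, Nat.sub_zero]
          rw [pow_succ 2 (k + 1)]
          omega

theorem R_subset_Acc (P : ι → Prog) (U : ℕ → ℕ → Finset ι) (k : ℕ) (root : ι) {s : ℕ}
    (hs : s ≤ k) {r : ℕ} (hr : r ∈ (nd P U k root s).R) : r ∈ Acc P U k root := by
  obtain ⟨d, hd⟩ : ∃ d, d = k - s := ⟨_, rfl⟩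
  induction d generalizing s with
  | zero =>
    have : s = k := by omega
    subst this
    rw [nd_top] at hr
    simp at hr
  | succ d ih =>
    have hs' : s < k := by omega
    have hr' := hr
    rw [nd_of_lt P U root hs'] at hr'
    rcases mem_R P _ _ _ _ hr' with h1 | h1
    · exact ih (s := s + 1) (by omega) h1 (by omega)
    · rw [← nd_of_lt P U root hs'] at h1
      exact Finset.mem_biUnion.2 ⟨s, Finset.mem_range.2 hs', h1⟩

theorem W_subset_Acc (P : ι → Prog) (U : ℕ → ℕ → Finset ι) {k : ℕ} (root : ι) {s : ℕ}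
    (hs : s < k) {r : ℕ} (hr : r ∈ (nd P U k root s).W) : r ∈ Acc P U k root := by
  refine Finset.mem_biUnion.2 ⟨s, Finset.mem_range.2 hs, ?_⟩
  rw [nd_of_lt P U root hs] at hr ⊢
  exact W_subset_A P _ _ _ _ hr

theorem mem_nd_X (P : ι → Prog) (U : ℕ → ℕ → Finset ι) (k : ℕ) (root : ι) {s : ℕ}
    (hs : s ≤ k) {p : ι} (hp : p ∈ (nd P U k root s).X) :
    p = root ∨ ∃ s', s ≤ s' ∧ s' < k ∧ p ∈ stg U s' := by
  obtain ⟨d, hd⟩ : ∃ d, d = k - s := ⟨_, rfl⟩
  induction d generalizing s with
  | zero =>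
    have : s = k := by omega
    subst this
    rw [nd_top] at hp
    left
    simpa using hp
  | succ d ih =>
    have hs' : s < k := by omega
    rw [nd_of_lt P U root hs'] at hp
    rcases mem_X P _ _ _ _ hp with h1 | h1
    · rcases ih (s := s + 1) (by omega) h1 (by omega) with h2 | ⟨s', h2, h3, h4⟩
      · exact Or.inl h2
      · exact Or.inr ⟨s', by omega, h3, h4⟩
    · exact Or.inr ⟨s, le_rfl, hs', h1⟩

/-- a needed register is read later, at a stage where it is not written before by disposable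
processors -/
theorem Chain.demand (h : Chain k U root) (P : ι → Prog) {s : ℕ} (hs : s ≤ k) {r : ℕ}
    (hr : r ∈ (nd P U k root s).R) :
    ∃ s', s ≤ s' ∧ s' < k ∧ ∃ L₁ q L₂, stg U s' = L₁ ++ q :: L₂ ∧ q ∈ U s' s' ∧
      NoWrite P (run P (pre U s')) L₁ r := by
  obtain ⟨d, hd⟩ : ∃ d, d = k - s := ⟨_, rfl⟩
  induction d generalizing s with
  | zero =>
    have : s = k := by omega
    subst this
    rw [nd_top] at hr
    simp at hr
  | succ d ih =>
    have hs' : s < k := by omega
    rw [nd_of_lt P U root hs'] at hr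
    rcases LB.demand P _ _ _ _ hr with ⟨h1, _⟩ | ⟨L₁, q, L₂, h1, h2, _, h4⟩
    · obtain ⟨s', h2, h3⟩ := ih (s := s + 1) (by omega) h1 (by omega)
      exact ⟨s', by omega, h3⟩
    · refine ⟨s, le_rfl, hs', L₁, q, L₂, h1, ?_, h4⟩
      have hnd := h.nodup hs'
      have hq2 : q ∉ L₂ := by
        rw [h1, List.nodup_append] at hnd
        exact (List.nodup_cons.1 hnd.2.1).1
      have hqX := h2.resolve_right hq2
      have hq : q ∈ stg U s := by rw [h1]; simp
      rcases mem_stg.1 hq with ⟨t, ht, hqt⟩ | hqs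
      · exfalso
        rcases mem_nd_X P U k root (by omega : s + 1 ≤ k) hqX with h5 | ⟨s', h5, h6, h7⟩
        · rw [h5] at hqt
          exact h.grp_disj_U ht hs' ht hs' hqt (h.root s hs')
        · exact h.idle ht hs' (by omega) h6 (by omega) hqt h7
      · exact hqs

/-- register `r` is covered in the cluster: whenever a processor of `U t s` has a pending `t`-th
write to it, so does one of the next group -/
def Covered (P : ι → Prog) (U : ℕ → ℕ → Finset ι) (k r : ℕ) : Prop :=
  ∀ t s, t ≤ s → s < k → (∃ p ∈ U t s, ∃ v, act P U t p = .write r v) →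
    ∃ p ∈ grp U t s, ∃ v, act P U t p = .write r v

/-- A covered register which is needed before stage `s` is not written up to stage `s`. -/
theorem Chain.fresh (h : Chain k U root) (P : ι → Prog) {s : ℕ} (hs : s ≤ k) {r : ℕ}
    (hr : r ∈ (nd P U k root s).R) (hc : Covered P U k r) {s' : ℕ} (h1 : s' ≤ s) (h2 : s' < k) :
    r ∉ (nd P U k root s').W := by
  intro hw
  obtain ⟨s'', h3, h4, L₁, q, L₂, h5, h6, h7⟩ := h.demand P hs hr
  rw [nd_of_lt P U root h2] at hw
  obtain ⟨M₁, w, M₂, v, h8, h9⟩ := mem_W P _ _ _ _ hw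
  have key : ∃ t ≤ s'', ∃ p ∈ grp U t s'', ∃ v, act P U t p = .write r v := by
    rcases h.act_eq P h2 h8 with ⟨t, ht, hwt, ha⟩ | ⟨hws, ha⟩
    · rcases (h1.trans h3).eq_or_lt with h10 | h10
      · subst h10
        exact ⟨t, ht, w, hwt, v, by rw [← ha, h9]⟩
      · have h11 : w ∈ U t s'' :=
          h.mono' (by omega : t ≤ s' + 1) h10 h4.le (Finset.mem_sdiff.1 hwt).1
        exact ⟨t, by omega, hc t s'' (by omega) h4 ⟨w, h11, v, by rw [← ha, h9]⟩⟩
    · have h11 : w ∈ U s' s'' := h.mono' le_rfl (by omega) h4.le hws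
      exact ⟨s', by omega, hc s' s'' (by omega) h4 ⟨w, h11, v, by rw [← ha, h9]⟩⟩
  obtain ⟨t, ht, p, hp, v', hv'⟩ := key
  exact h.not_noWrite P h4 ht h5 h6 hp hv' h7

end chain

end Pool.Agent.Lib.MP_2ab09f_lc.LB
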