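import Mathlib

/-!
A Kraft-type inequality: among many partial functions with small domains, two agree on the
intersection of their domains.
-/

namespace Pool.Agent.Lib.MP_2ab09f_lc.LB

theorem kraft {κ β : Type*} [DecidableEq κ] [Fintype β] [Nonempty β] (S : Finset κ)
    (A : κ → Finset ℕ) (f : κ → ℕ → β) (D : ℕ) (hD : ∀ i ∈ S, (A i).card ≤ D)
    (hS : Fintype.card β ^ D < S.card) :
    ∃ i ∈ S, ∃ j ∈ S, i ≠ j ∧ ∀ r ∈ A i, r ∈ A j → f i r = f j r := by
  classical
  by_contra hcon
  push Not at hcon
  set T : Finset ℕ := S.biUnion A with hT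
  have hAT : ∀ i ∈ S, A i ⊆ T := fun i hi => Finset.subset_biUnion_of_mem A hi
  let E : κ → Finset (T → β) := fun i =>
    Finset.univ.filter fun g => ∀ r : T, (r : ℕ) ∈ A i → g r = f i r
  have hdisj : (S : Set κ).PairwiseDisjoint E := by
    intro i hi j hj hij
    rw [Function.onFun, Finset.disjoint_left]
    intro g hg hg'
    obtain ⟨r, h1, h2, h3⟩ := hcon i hi j hj hij
    have hr : r ∈ T := hAT i hi h1
    have e1 := (Finset.mem_filter.1 hg).2 ⟨r, hr⟩ h1
    have e2 := (Finset.mem_filter.1 hg').2 ⟨r, hr⟩ h2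
    exact h3 (e1.symm.trans e2)
  have hsum : ∑ i ∈ S, (E i).card ≤ Fintype.card β ^ T.card := by
    rw [← Finset.card_biUnion hdisj]
    refine (Finset.card_le_univ _).trans ?_
    rw [Fintype.card_fun, Fintype.card_coe]
  have hβ : 0 < Fintype.card β := Fintype.card_pos
  have hone : ∀ i ∈ S, Fintype.card β ^ T.card ≤ (E i).card * Fintype.card β ^ D := by
    intro i hi
    have hinj : Function.Injective (fun g : T → β =>
        ((⟨fun r => if (r : ℕ) ∈ A i then f i r else g r, by
          refine Finset.mem_filter.2 ⟨Finset.mem_univ _, ?_⟩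
          intro r hr
          simp only [if_pos hr]⟩ : E i), fun r : A i => g ⟨r, hAT i hi r.2⟩)) := by
      intro g g' h
      simp only [Prod.mk.injEq, Subtype.mk.injEq] at h
      funext r
      by_cases hr : (r : ℕ) ∈ A i
      · exact congrFun h.2 ⟨r, hr⟩
      · have := congrFun h.1 r
        simpa only [if_neg hr] using this
    have h1 := Fintype.card_le_of_injective _ hinj
    rw [Fintype.card_prod, Fintype.card_fun, Fintype.card_fun, Fintype.card_coe, Fintype.card_coe,
      Fintype.card_coe] at h1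
    exact h1.trans (Nat.mul_le_mul_left _ (Nat.pow_le_pow_right hβ (hD i hi)))
  have h1 : S.card * Fintype.card β ^ T.card ≤ Fintype.card β ^ D * Fintype.card β ^ T.card := by
    calc S.card * Fintype.card β ^ T.card = ∑ i ∈ S, Fintype.card β ^ T.card := by
          rw [Finset.sum_const, smul_eq_mul]
      _ ≤ ∑ i ∈ S, (E i).card * Fintype.card β ^ D := Finset.sum_le_sum hone
      _ = (∑ i ∈ S, (E i).card) * Fintype.card β ^ D := by rw [Finset.sum_mul]
      _ ≤ Fintype.card β ^ T.card * Fintype.card β ^ D := Nat.mul_le_mul_right _ hsum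
      _ = _ := by rw [mul_comm]
  have h2 := Nat.le_of_mul_le_mul_right h1 (pow_pos hβ _)
  omega

end Pool.Agent.Lib.MP_2ab09f_lc.LB
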