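import Mathlib
import Pool.Agent.Lib.MP_2ab09f_lc.LB.Chain
import Pool.Agent.Lib.MP_2ab09f_lc.Outer

/-!
Two compatible clusters can be run together without noticing each other.
-/

namespace Pool.Agent.Lib.MP_2ab09f_lc.LB

open Pool.Agent.Lib.MP_2ab09f_lc

variable {ι : Type*} [DecidableEq ι]

/-- the merged schedule: in every stage first the needed steps of the first cluster, then those
of the second one -/
noncomputable def mrg (P : ι → Prog) (U₁ U₂ : ℕ → ℕ → Finset ι) (k : ℕ) (r₁ r₂ : ι) :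
    ℕ → List ι
  | 0 => []
  | s + 1 => mrg P U₁ U₂ k r₁ r₂ s ++ ((nd P U₁ k r₁ s).K ++ (nd P U₂ k r₂ s).K)

theorem mem_stg_subset {U : ℕ → ℕ → Finset ι} {S : Finset ι} (hS : ∀ t s, U t s ⊆ S) {s : ℕ}
    {p : ι} (hp : p ∈ stg U s) : p ∈ S := by
  rcases mem_stg.1 hp with ⟨t, _, h⟩ | h
  · exact hS _ _ (Finset.mem_sdiff.1 h).1
  · exact hS _ _ h

theorem mem_K_subset {P : ι → Prog} {U : ℕ → ℕ → Finset ι} {k : ℕ} {root : ι} {S : Finset ι}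
    (hS : ∀ t s, U t s ⊆ S) {s : ℕ} (hs : s < k) {p : ι} (hp : p ∈ (nd P U k root s).K) :
    p ∈ S := by
  rw [nd_of_lt P U root hs] at hp
  exact mem_stg_subset hS ((sublist_K P _ _ _ _).subset hp)

theorem mem_X_subset {P : ι → Prog} {U : ℕ → ℕ → Finset ι} {k : ℕ} {root : ι} {S : Finset ι}
    (hr : root ∈ S) (hS : ∀ t s, U t s ⊆ S) {s : ℕ} (hs : s ≤ k) {p : ι}
    (hp : p ∈ (nd P U k root s).X) : p ∈ S := by
  rcases mem_nd_X P U k root hs hp with h | ⟨s', _, _, h⟩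
  · rw [h]; exact hr
  · exact mem_stg_subset hS h

/-- the part of one cluster in a merged stage -/
theorem part {P : ι → Prog} {U U' : ℕ → ℕ → Finset ι} {k : ℕ} {root root' : ι}
    {S S' : Finset ι} (hSS : Disjoint S S') (hr' : root' ∈ S')
    (hS : ∀ t s, U t s ⊆ S) (hS' : ∀ t s, U' t s ⊆ S') {s s' : ℕ} (hs : s < k) (hs' : s' ≤ k)
    {c : Conf ι}
    (hX : ∀ q ∈ (nd P U k root s).X, c.hist q = (run P (pre U s)).hist q)
    (hR : ∀ r ∈ (nd P U k root s).R, c.mem r = (run P (pre U s)).mem r)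
    (hX' : ∀ q ∈ (nd P U' k root' s').X, c.hist q = (run P (pre U' s')).hist q)
    (hR' : ∀ r ∈ (nd P U' k root' s').R, c.mem r = (run P (pre U' s')).mem r)
    (hW : ∀ r ∈ (nd P U' k root' s').R, r ∉ (nd P U k root s).W) :
    ((∀ q ∈ (nd P U k root (s + 1)).X, (runFrom P c (nd P U k root s).K).hist q =
        (run P (pre U (s + 1))).hist q) ∧
      ∀ r ∈ (nd P U k root (s + 1)).R, (runFrom P c (nd P U k root s).K).mem r =
        (run P (pre U (s + 1))).mem r) ∧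
    ((∀ q ∈ (nd P U' k root' s').X, (runFrom P c (nd P U k root s).K).hist q =
        (run P (pre U' s')).hist q) ∧
      ∀ r ∈ (nd P U' k root' s').R, (runFrom P c (nd P U k root s).K).mem r =
        (run P (pre U' s')).mem r) := by
  have hK : ∀ p ∈ (nd P U k root s).K, p ∈ S := fun p hp => mem_K_subset hS hs hp
  rw [nd_of_lt P U root hs] at hX hR hW hK ⊢
  obtain ⟨h1, h2, h3⟩ := slice_correct P _ _ _ c _ hX hR
  rw [run_pre_succ]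
  refine ⟨⟨h1, h2⟩, ?_, ?_⟩
  · intro q hq
    rw [runFrom_hist_of_notMem]
    · exact hX' q hq
    · intro hqK
      exact Finset.disjoint_left.1 hSS (hK q hqK) (mem_X_subset hr' hS' hs' hq)
  · intro r hr
    rw [h3 r (hW r hr)]
    exact hR' r hr

theorem merge {P : ι → Prog} {U₁ U₂ : ℕ → ℕ → Finset ι} {k : ℕ} {r₁ r₂ : ι}
    {S₁ S₂ : Finset ι} (h₁ : Chain k U₁ r₁) (h₂ : Chain k U₂ r₂) (hSS : Disjoint S₁ S₂)
    (hr₁ : r₁ ∈ S₁) (hr₂ : r₂ ∈ S₂) (hS₁ : ∀ t s, U₁ t s ⊆ S₁) (hS₂ : ∀ t s, U₂ t s ⊆ S₂)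
    (hc₁ : ∀ r ∈ Acc P U₂ k r₂, Covered P U₁ k r)
    (hc₂ : ∀ r ∈ Acc P U₁ k r₁, Covered P U₂ k r)
    (hl : ∀ r ∈ Acc P U₁ k r₁, r ∈ Acc P U₂ k r₂ → ∀ s < k,
      (r ∈ (nd P U₁ k r₁ s).W ↔ r ∈ (nd P U₂ k r₂ s).W))
    {s : ℕ} (hs : s ≤ k) :
    ((∀ q ∈ (nd P U₁ k r₁ s).X, (run P (mrg P U₁ U₂ k r₁ r₂ s)).hist q =
        (run P (pre U₁ s)).hist q) ∧
      ∀ r ∈ (nd P U₁ k r₁ s).R, (run P (mrg P U₁ U₂ k r₁ r₂ s)).mem r =
        (run P (pre U₁ s)).mem r) ∧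
    ((∀ q ∈ (nd P U₂ k r₂ s).X, (run P (mrg P U₁ U₂ k r₁ r₂ s)).hist q =
        (run P (pre U₂ s)).hist q) ∧
      ∀ r ∈ (nd P U₂ k r₂ s).R, (run P (mrg P U₁ U₂ k r₁ r₂ s)).mem r =
        (run P (pre U₂ s)).mem r) := by
  induction s with
  | zero => exact ⟨⟨fun _ _ => rfl, fun _ _ => rfl⟩, fun _ _ => rfl, fun _ _ => rfl⟩
  | succ s ih =>
    have hs' : s < k := by omega
    obtain ⟨⟨a1, a2⟩, a3, a4⟩ := ih hs'.le
    have w1 : ∀ r ∈ (nd P U₂ k r₂ s).R, r ∉ (nd P U₁ k r₁ s).W := by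
      intro r hr hw
      have e1 := R_subset_Acc P U₂ k r₂ hs'.le hr
      have e2 := W_subset_Acc P U₁ r₁ hs' hw
      exact h₂.fresh P hs'.le hr (hc₂ r e2) le_rfl hs' ((hl r e2 e1 s hs').1 hw)
    have w2 : ∀ r ∈ (nd P U₁ k r₁ (s + 1)).R, r ∉ (nd P U₂ k r₂ s).W := by
      intro r hr hw
      have e1 := R_subset_Acc P U₁ k r₁ hs hr
      have e2 := W_subset_Acc P U₂ r₂ hs' hw
      exact h₁.fresh P hs hr (hc₁ r e2) (Nat.le_succ s) hs' ((hl r e1 e2 s hs').2 hw)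
    have hrun : run P (mrg P U₁ U₂ k r₁ r₂ (s + 1)) =
        runFrom P (runFrom P (run P (mrg P U₁ U₂ k r₁ r₂ s)) (nd P U₁ k r₁ s).K)
          (nd P U₂ k r₂ s).K := by
      simp only [run, runFrom, mrg, List.foldl_append]
    obtain ⟨⟨b1, b2⟩, b3, b4⟩ := part hSS hr₂ hS₁ hS₂ hs' hs'.le a1 a2 a3 a4 w1
    obtain ⟨⟨c1, c2⟩, c3, c4⟩ := part hSS.symm hr₁ hS₂ hS₁ hs' hs b3 b4 b1 b2 w2
    rw [hrun]
    exact ⟨⟨c3, c4⟩, c1, c2⟩

/-- both roots have in the merged run the same histories as in their own runs -/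
theorem merge_root {P : ι → Prog} {U₁ U₂ : ℕ → ℕ → Finset ι} {k : ℕ} {r₁ r₂ : ι}
    {S₁ S₂ : Finset ι} (h₁ : Chain k U₁ r₁) (h₂ : Chain k U₂ r₂) (hSS : Disjoint S₁ S₂)
    (hr₁ : r₁ ∈ S₁) (hr₂ : r₂ ∈ S₂) (hS₁ : ∀ t s, U₁ t s ⊆ S₁) (hS₂ : ∀ t s, U₂ t s ⊆ S₂)
    (hc₁ : ∀ r ∈ Acc P U₂ k r₂, Covered P U₁ k r)
    (hc₂ : ∀ r ∈ Acc P U₁ k r₁, Covered P U₂ k r)
    (hl : ∀ r ∈ Acc P U₁ k r₁, r ∈ Acc P U₂ k r₂ → ∀ s < k,
      (r ∈ (nd P U₁ k r₁ s).W ↔ r ∈ (nd P U₂ k r₂ s).W)) :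
    (run P (mrg P U₁ U₂ k r₁ r₂ k)).hist r₁ = (run P (pre U₁ k)).hist r₁ ∧
    (run P (mrg P U₁ U₂ k r₁ r₂ k)).hist r₂ = (run P (pre U₂ k)).hist r₂ := by
  obtain ⟨⟨a1, _⟩, a2, _⟩ := merge h₁ h₂ hSS hr₁ hr₂ hS₁ hS₂ hc₁ hc₂ hl le_rfl
  refine ⟨a1 r₁ ?_, a2 r₂ ?_⟩
  · rw [nd_top]; simp
  · rw [nd_top]; simp

/-- the root takes a step in every stage -/
theorem Chain.count_root {k : ℕ} {U : ℕ → ℕ → Finset ι} {root : ι} (h : Chain k U root) {s : ℕ}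
    (hs : s ≤ k) : s ≤ (pre U s).count root := by
  induction s with
  | zero => exact Nat.zero_le _
  | succ s ih =>
    rw [pre, List.count_append]
    have h1 := ih (by omega)
    have h2 : 0 < (stg U s).count root := by
      rw [List.count_pos_iff, mem_stg]
      exact Or.inr (h.root s (by omega))
    omega

theorem mem_pre_subset {U : ℕ → ℕ → Finset ι} {S : Finset ι} (hS : ∀ t s, U t s ⊆ S) {s : ℕ}
    {p : ι} (hp : p ∈ pre U s) : p ∈ S := by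
  induction s with
  | zero => simp [pre] at hp
  | succ s ih =>
    rw [pre, List.mem_append] at hp
    rcases hp with hp | hp
    · exact ih hp
    · exact mem_stg_subset hS hp

/-- Two compatible clusters whose roots have output contradict agreement. -/
theorem no_compatible {n : ℕ} {P : Fin n → Prog} {u : Fin n → ℕ} (hu : Function.Injective u)
    (hP : Good P u) {U₁ U₂ : ℕ → ℕ → Finset (Fin n)} {k : ℕ} {r₁ r₂ : Fin n}
    {S₁ S₂ : Finset (Fin n)} (h₁ : Chain k U₁ r₁) (h₂ : Chain k U₂ r₂) (hSS : Disjoint S₁ S₂)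
    (hr₁ : r₁ ∈ S₁) (hr₂ : r₂ ∈ S₂) (hS₁ : ∀ t s, U₁ t s ⊆ S₁) (hS₂ : ∀ t s, U₂ t s ⊆ S₂)
    (hc₁ : ∀ r ∈ Acc P U₂ k r₂, Covered P U₁ k r)
    (hc₂ : ∀ r ∈ Acc P U₁ k r₁, Covered P U₂ k r)
    (hl : ∀ r ∈ Acc P U₁ k r₁, r ∈ Acc P U₂ k r₂ → ∀ s < k,
      (r ∈ (nd P U₁ k r₁ s).W ↔ r ∈ (nd P U₂ k r₂ s).W))
    (hl₁ : ((run P (pre U₁ k)).hist r₁).length < k)
    (hl₂ : ((run P (pre U₂ k)).hist r₂).length < k) : False := by
  have out : ∀ {U : ℕ → ℕ → Finset (Fin n)} {root : Fin n} {S : Finset (Fin n)},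
      Chain k U root → (∀ t s, U t s ⊆ S) → ((run P (pre U k)).hist root).length < k →
      ∃ q ∈ S, P root ((run P (pre U k)).hist root) = .out (u q) := by
    intro U root S h hS hlen
    have h3 := h.count_root le_rfl
    rcases run_length P (pre U k) root with h4 | ⟨a, ha⟩
    · omega
    · have hmem : root ∈ pre U k := by
        rw [← List.count_pos_iff]
        omega
      obtain ⟨q, hq, hqa⟩ := (hP (pre U k)).1 root hmem a ha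
      exact ⟨q, mem_pre_subset hS hq, by rw [ha, hqa]⟩
  obtain ⟨q₁, hq₁, e₁⟩ := out h₁ hS₁ hl₁
  obtain ⟨q₂, hq₂, e₂⟩ := out h₂ hS₂ hl₂
  obtain ⟨m₁, m₂⟩ := merge_root h₁ h₂ hSS hr₁ hr₂ hS₁ hS₂ hc₁ hc₂ hl
  have h3 := (hP (mrg P U₁ U₂ k r₁ r₂ k)).2 r₁ r₂ (u q₁) (u q₂)
    (by unfold Outputs; rw [m₁]; exact e₁) (by unfold Outputs; rw [m₂]; exact e₂)
  have h4 := hu h3
  subst h4
  exact Finset.disjoint_left.1 hSS hq₁ hq₂

end Pool.Agent.Lib.MP_2ab09f_lc.LB
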