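import Mathlib
import Pool.Agent.Lib.MP_2ab09f_lc.LB.Chain

/-!
The roles in a cluster, and the exchange of blocks of roles.
-/

namespace Pool.Agent.Lib.MP_2ab09f_lc.LB

open Pool.Agent.Lib.MP_2ab09f_lc

/-- the roles in a cluster -/
abbrev Role (J B : ℕ) := Fin J → Fin (B + 1)

/-- the nested sets of roles; `AA J B e` has `(B + 1) ^ e` elements -/
def AA (J B e : ℕ) : Finset (Role J B) :=
  Finset.univ.filter fun x => ∀ j : Fin J, e ≤ (j : ℕ) → x j = 0

theorem mem_AA {J B e : ℕ} {x : Role J B} : x ∈ AA J B e ↔ ∀ j : Fin J, e ≤ (j : ℕ) → x j = 0 := by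
  simp [AA]

theorem AA_mono {J B e e' : ℕ} (h : e ≤ e') : AA J B e ⊆ AA J B e' := by
  intro x hx
  rw [mem_AA] at hx ⊢
  exact fun j hj => hx j (h.trans hj)

theorem zero_mem_AA {J B e : ℕ} : (0 : Role J B) ∈ AA J B e := by
  rw [mem_AA]
  exact fun _ _ => rfl

/-- triangular numbers -/
def tri : ℕ → ℕ
  | 0 => 0
  | d + 1 => tri d + (d + 1)

theorem tri_mono {a b : ℕ} (h : a ≤ b) : tri a ≤ tri b := by
  induction b, h using Nat.le_induction with
  | base => exact le_rfl
  | succ b _ ih => rw [tri]; omega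

theorem tri_le (a : ℕ) : tri a ≤ a ^ 2 := by
  induction a with
  | zero => simp [tri]
  | succ a ih => rw [tri]; nlinarith

/-- the index of the set of roles `U t s` -/
def ee (k t s : ℕ) : ℕ := tri (k - 1 - t) + (s - t)

theorem ee_succ {k t s : ℕ} (h : t ≤ s) : ee k t (s + 1) = ee k t s + 1 := by
  unfold ee
  omega

theorem ee_top {k t : ℕ} (h : t + 1 < k) : ee k (t + 1) k = ee k t t := by
  unfold ee
  obtain ⟨d, rfl⟩ : ∃ d, k = t + 2 + d := ⟨k - t - 2, by omega⟩
  have h1 : t + 2 + d - 1 - t = d + 1 := by omega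
  have h2 : t + 2 + d - 1 - (t + 1) = d := by omega
  rw [h1, h2, tri]
  omega

theorem ee_le {k t s : ℕ} (h1 : t < k) (h2 : s ≤ k) : ee k t s ≤ tri k := by
  unfold ee
  have h3 : tri (k - 1 - t) ≤ tri (k - 1) := tri_mono (by omega)
  obtain ⟨d, rfl⟩ : ∃ d, k = d + 1 := ⟨k - 1, by omega⟩
  rw [tri]
  simp only [Nat.add_sub_cancel] at h3 ⊢
  omega

/-- for an earlier class the index is larger -/
theorem ee_lt {k t s t' s' : ℕ} (h1 : t' < t) (h2 : t < k) (h3 : s < k) :
    ee k t s < ee k t' s' := by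
  unfold ee
  have h4 : tri (k - 1 - t + 1) ≤ tri (k - 1 - t') := tri_mono (by omega)
  rw [tri] at h4
  omega

section

variable {ι : Type*} [DecidableEq ι] {J B k : ℕ}

/-- the sets of processors of a cluster with the assignment `σ` of roles -/
def US (k : ℕ) (σ : Role J B → ι) (t s : ℕ) : Finset ι := (AA J B (ee k t s)).image σ

theorem chain_US (σ : Role J B → ι) : Chain k (US k σ) (σ 0) := by
  refine ⟨?_, ?_, ?_⟩
  · intro t s h1 _
    refine Finset.image_subset_image (AA_mono ?_)
    rw [ee_succ h1]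
    exact Nat.le_succ _
  · intro t h
    unfold US
    rw [ee_top h]
  · intro t _
    exact Finset.mem_image_of_mem _ zero_mem_AA

theorem US_subset (σ : Role J B → ι) (t s : ℕ) : US k σ t s ⊆ Finset.univ.image σ :=
  Finset.image_subset_image (Finset.subset_univ _)

theorem pre_congr {U U' : ℕ → ℕ → Finset ι} {t : ℕ}
    (h : ∀ t' s', t' < t → t' ≤ s' → U t' s' = U' t' s') : pre U t = pre U' t := by
  induction t with
  | zero => rfl
  | succ t ih =>
    rw [pre, pre, ih (fun t' s' h1 h2 => h t' s' (by omega) h2)]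
    congr 1
    unfold stg
    rw [h t t (Nat.lt_succ_self t) le_rfl]
    congr 1
    unfold gpt
    refine List.flatMap_congr ?_
    intro t' ht'
    rw [List.mem_range] at ht'
    unfold grp
    rw [h t' (t + 1) (by omega) (by omega), h t' t (by omega) (by omega)]

/-- exchange of the values `0` and `b` of coordinate `e` -/
def swx (e : Fin J) (b : Fin (B + 1)) : Equiv.Perm (Role J B) :=
  Equiv.piCongrRight fun j => if j = e then Equiv.swap 0 b else 1

theorem swx_apply (e : Fin J) (b : Fin (B + 1)) (x : Role J B) (j : Fin J) :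
    swx e b x j = if j = e then Equiv.swap 0 b (x j) else x j := by
  unfold swx
  rw [Equiv.piCongrRight_apply]
  by_cases h : j = e
  · simp [h]
  · simp [h]

theorem swx_swx (e : Fin J) (b : Fin (B + 1)) (x : Role J B) : swx e b (swx e b x) = x := by
  funext j
  rw [swx_apply, swx_apply]
  by_cases h : j = e
  · simp only [h, if_true, Equiv.swap_apply_self]
  · simp only [h, if_false]

theorem swx_mem_AA {e : Fin J} {b : Fin (B + 1)} {x : Role J B} {e' : ℕ} (he : (e : ℕ) < e') :
    swx e b x ∈ AA J B e' ↔ x ∈ AA J B e' := by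
  rw [mem_AA, mem_AA]
  refine forall_congr' fun j => forall_congr' fun hj => ?_
  have hje : j ≠ e := by
    rintro rfl
    omega
  rw [swx_apply, if_neg hje]

/-- the blocks -/
def blk (e : Fin J) (b : Fin (B + 1)) : Finset (Role J B) :=
  (AA J B ((e : ℕ) + 1)).filter fun x => x e = b

theorem swx_mem_blk {e : Fin J} {b : Fin (B + 1)} {x : Role J B} :
    swx e b x ∈ AA J B e ↔ x ∈ blk e b := by
  unfold blk
  rw [Finset.mem_filter, ← swx_mem_AA (b := b) (Nat.lt_succ_self (e : ℕ)), mem_AA, mem_AA]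
  constructor
  · intro h
    refine ⟨fun j hj => h j (by omega), ?_⟩
    have h1 := h e le_rfl
    rw [swx_apply, if_pos rfl] at h1
    have h2 : Equiv.swap 0 b (Equiv.swap 0 b (x e)) = Equiv.swap 0 b 0 := by rw [h1]
    rw [Equiv.swap_apply_self, Equiv.swap_apply_left] at h2
    exact h2
  · rintro ⟨h1, h2⟩ j hj
    rcases hj.eq_or_lt with h3 | h3
    · have h4 : j = e := Fin.ext h3.symm
      subst h4
      rw [swx_apply, if_pos rfl, h2, Equiv.swap_apply_right]
    · exact h1 j h3

theorem image_swx_of_lt (σ : Role J B → ι) {e : Fin J} {b : Fin (B + 1)} {e' : ℕ}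
    (he : (e : ℕ) < e') :
    (AA J B e').image (fun x => σ (swx e b x)) = (AA J B e').image σ := by
  ext p
  simp only [Finset.mem_image]
  constructor
  · rintro ⟨x, hx, rfl⟩
    exact ⟨swx e b x, (swx_mem_AA he).2 hx, rfl⟩
  · rintro ⟨x, hx, rfl⟩
    exact ⟨swx e b x, (swx_mem_AA he).2 hx, by rw [swx_swx]⟩

theorem image_swx_self (σ : Role J B → ι) (e : Fin J) (b : Fin (B + 1)) :
    (AA J B e).image (fun x => σ (swx e b x)) = (blk e b).image σ := by
  ext p
  simp only [Finset.mem_image]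
  constructor
  · rintro ⟨x, hx, rfl⟩
    refine ⟨swx e b x, ?_, rfl⟩
    rw [← swx_mem_blk, swx_swx]
    exact hx
  · rintro ⟨x, hx, rfl⟩
    refine ⟨swx e b x, ?_, by rw [swx_swx]⟩
    exact swx_mem_blk.2 hx

/-- in the cluster, `r` is written by a processor of `U t s`, but not by the next group -/
def Bd (P : ι → Prog) (U : ℕ → ℕ → Finset ι) (t s r : ℕ) : Prop :=
  (∃ p ∈ U t s, ∃ v, act P U t p = .write r v) ∧
    ¬ ∃ p ∈ grp U t s, ∃ v, act P U t p = .write r v

theorem covered_of_not_Bd {P : ι → Prog} {U : ℕ → ℕ → Finset ι} {r : ℕ}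
    (h : ∀ t s, t ≤ s → s < k → ¬ Bd P U t s r) : Covered P U k r := by
  intro t s h1 h2 h3
  by_contra h4
  exact h t s h1 h2 ⟨h3, h4⟩

/-- At most one block exchange makes the register uncovered. -/
theorem Bd_unique (P : ι → Prog) {σ : Role J B → ι} (hσ : Function.Injective σ) {t s r : ℕ}
    (h1 : t ≤ s) (h2 : s < k) (e : Fin J) (he : (e : ℕ) = ee k t s) {b b' : Fin (B + 1)}
    (hb : Bd P (US k fun x => σ (swx e b x)) t s r)
    (hb' : Bd P (US k fun x => σ (swx e b' x)) t s r) : b = b' := by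
  by_contra hne
  have hact : ∀ b : Fin (B + 1), act P (US k fun x => σ (swx e b x)) t = act P (US k σ) t := by
    intro b
    unfold act
    rw [pre_congr (U' := US k σ)]
    intro t' s' h3 h4
    unfold US
    refine image_swx_of_lt σ ?_
    rw [he]
    exact ee_lt h3 (by omega) h2
  have h3 : ∀ b : Fin (B + 1), US k (fun x => σ (swx e b x)) t s = (blk e b).image σ := by
    intro b
    unfold US
    rw [← he]
    exact image_swx_self σ e b
  have h4 : ∀ b : Fin (B + 1), US k (fun x => σ (swx e b x)) t (s + 1) =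
      (AA J B ((e : ℕ) + 1)).image σ := by
    intro b
    unfold US
    rw [ee_succ h1, ← he]
    exact image_swx_of_lt σ (Nat.lt_succ_self _)
  obtain ⟨⟨p, hp, hw⟩, _⟩ := hb
  obtain ⟨_, hn⟩ := hb'
  apply hn
  refine ⟨p, ?_, ?_⟩
  · unfold grp
    rw [h3] at hp
    rw [h4, h3, Finset.mem_sdiff]
    obtain ⟨x, hx, rfl⟩ := Finset.mem_image.1 hp
    refine ⟨Finset.mem_image_of_mem _ (Finset.mem_filter.1 hx).1, ?_⟩
    intro hp'
    obtain ⟨y, hy, hxy⟩ := Finset.mem_image.1 hp'
    have h5 := hσ hxy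
    subst h5
    exact hne ((Finset.mem_filter.1 hx).2.symm.trans (Finset.mem_filter.1 hy).2)
  · rw [hact] at hw ⊢
    exact hw

end

end Pool.Agent.Lib.MP_2ab09f_lc.LB
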