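import Mathlib
import Pool.Agent.Lib.MP_2ab09f_lc.LB.Roles
import Pool.Agent.Lib.MP_2ab09f_lc.LB.Merge
import Pool.Agent.Lib.MP_2ab09f_lc.LB.Kraft

/-!
For most assignments of roles, all clusters cover the registers accessed by the other clusters.
-/

namespace Pool.Agent.Lib.MP_2ab09f_lc.LB

open Pool.Agent.Lib.MP_2ab09f_lc

/-- assignments of the roles in all clusters -/
abbrev Asg (m J B n : ℕ) := (Fin m × Role J B) ↪ Fin n

section

variable {n m J B : ℕ}

/-- the assignment in cluster `i` -/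
def cl (σ : Asg m J B n) (i : Fin m) : Role J B → Fin n := fun x => σ (i, x)

theorem cl_injective (σ : Asg m J B n) (i : Fin m) : Function.Injective (cl σ i) := by
  intro x y h
  have := σ.injective h
  exact (Prod.mk.inj this).2

theorem cl_disjoint (σ : Asg m J B n) {i j : Fin m} (h : i ≠ j) :
    Disjoint (Finset.univ.image (cl σ i)) (Finset.univ.image (cl σ j)) := by
  rw [Finset.disjoint_left]
  intro p hp hp'
  obtain ⟨x, _, hx⟩ := Finset.mem_image.1 hp
  obtain ⟨y, _, hy⟩ := Finset.mem_image.1 hp'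
  have h1 : σ (i, x) = σ (j, y) := hx.trans hy.symm
  exact h (Prod.mk.inj (σ.injective h1)).1

/-- exchange of blocks in cluster `i` -/
def exf (i : Fin m) (e : Fin J) (b : Fin (B + 1)) (x : Fin m × Role J B) : Fin m × Role J B :=
  (x.1, if x.1 = i then swx e b x.2 else x.2)

theorem exf_exf (i : Fin m) (e : Fin J) (b : Fin (B + 1)) (x : Fin m × Role J B) :
    exf i e b (exf i e b x) = x := by
  unfold exf
  by_cases h : x.1 = i
  · simp only [h, if_true, swx_swx]
    rw [← h]
  · simp only [h, if_false]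

/-- the assignment after an exchange of blocks in cluster `i` -/
def exA (i : Fin m) (e : Fin J) (b : Fin (B + 1)) (σ : Asg m J B n) : Asg m J B n :=
  ⟨fun x => σ (exf i e b x), fun x y h => by
    have h1 := σ.injective h
    rw [← exf_exf i e b x, h1, exf_exf]⟩

theorem exA_exA (i : Fin m) (e : Fin J) (b : Fin (B + 1)) (σ : Asg m J B n) :
    exA i e b (exA i e b σ) = σ := by
  ext x
  simp only [exA, Function.Embedding.coeFn_mk, exf_exf]

theorem cl_exA_self (i : Fin m) (e : Fin J) (b : Fin (B + 1)) (σ : Asg m J B n) :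
    cl (exA i e b σ) i = fun x => cl σ i (swx e b x) := by
  funext x
  simp only [cl, exA, exf, Function.Embedding.coeFn_mk, if_true]

theorem cl_exA_ne {i j : Fin m} (h : j ≠ i) (e : Fin J) (b : Fin (B + 1)) (σ : Asg m J B n) :
    cl (exA i e b σ) j = cl σ j := by
  funext x
  simp only [cl, exA, exf, Function.Embedding.coeFn_mk, if_neg h]

/-- cluster `i` does not cover, at `(t, s)`, a register accessed by cluster `j` -/
def BP (P : Fin n → Prog) (k : ℕ) (i j : Fin m) (t s : ℕ) (σ : Asg m J B n) : Prop :=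
  ∃ r ∈ Acc P (US k (cl σ j)) k (cl σ j 0), Bd P (US k (cl σ i)) t s r

open Classical in
theorem card_exchange (P : Fin n → Prog) (k : ℕ) {i j : Fin m} (hij : i ≠ j) {t s : ℕ}
    (h1 : t ≤ s) (h2 : s < k) (e : Fin J) (he : (e : ℕ) = ee k t s) (σ : Asg m J B n) :
    (Finset.univ.filter fun b : Fin (B + 1) => BP P k i j t s (exA i e b σ)).card ≤
      2 ^ (k + 1) := by
  set A := Acc P (US k (cl σ j)) k (cl σ j 0) with hA
  have hsub : (Finset.univ.filter fun b : Fin (B + 1) => BP P k i j t s (exA i e b σ)) ⊆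
      A.biUnion fun r => Finset.univ.filter fun b : Fin (B + 1) =>
        Bd P (US k fun x => cl σ i (swx e b x)) t s r := by
    intro b hb
    obtain ⟨r, hr, hbd⟩ := (Finset.mem_filter.1 hb).2
    rw [cl_exA_ne hij.symm] at hr
    rw [cl_exA_self] at hbd
    exact Finset.mem_biUnion.2 ⟨r, hr, Finset.mem_filter.2 ⟨Finset.mem_univ _, hbd⟩⟩
  refine (Finset.card_le_card hsub).trans ?_
  refine (Finset.card_biUnion_le_card_mul A _ 1 ?_).trans ?_
  · intro r _
    rw [Finset.card_le_one]
    intro b hb b' hb'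
    exact Bd_unique P (cl_injective σ i) h1 h2 e he (Finset.mem_filter.1 hb).2
      (Finset.mem_filter.1 hb').2
  · rw [mul_one]
    exact (chain_US (cl σ j)).card_Acc_le P

open Classical in
theorem card_BP (P : Fin n → Prog) (k : ℕ) {i j : Fin m} (hij : i ≠ j) {t s : ℕ}
    (h1 : t ≤ s) (h2 : s < k) (hJ : ee k t s < J) :
    (B + 1) * (Finset.univ.filter fun σ : Asg m J B n => BP P k i j t s σ).card ≤
      2 ^ (k + 1) * Fintype.card (Asg m J B n) := by
  set e : Fin J := ⟨ee k t s, hJ⟩ with he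
  have hb : ∀ b : Fin (B + 1),
      (Finset.univ.filter fun σ : Asg m J B n => BP P k i j t s σ).card ≤
      (Finset.univ.filter fun σ : Asg m J B n => BP P k i j t s (exA i e b σ)).card := by
    intro b
    refine Finset.card_le_card_of_injOn (fun σ => exA i e b σ) ?_ ?_
    · intro σ hσ
      simp only [Finset.coe_filter, Finset.mem_univ, true_and, Set.mem_ofPred_eq] at hσ ⊢
      rw [exA_exA]
      exact hσ
    · intro σ _ σ' _ h
      have h3 : exA i e b (exA i e b σ) = exA i e b (exA i e b σ') := congrArg (exA i e b) h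
      rwa [exA_exA, exA_exA] at h3
  calc (B + 1) * (Finset.univ.filter fun σ : Asg m J B n => BP P k i j t s σ).card
      = ∑ _b : Fin (B + 1),
          (Finset.univ.filter fun σ : Asg m J B n => BP P k i j t s σ).card := by
        rw [Finset.sum_const, Finset.card_univ, Fintype.card_fin, smul_eq_mul]
    _ ≤ ∑ b : Fin (B + 1),
          (Finset.univ.filter fun σ : Asg m J B n => BP P k i j t s (exA i e b σ)).card :=
        Finset.sum_le_sum fun b _ => hb b
    _ = ∑ σ : Asg m J B n,
          (Finset.univ.filter fun b : Fin (B + 1) => BP P k i j t s (exA i e b σ)).card := by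
        simp only [Finset.card_filter]
        exact Finset.sum_comm
    _ ≤ ∑ _σ : Asg m J B n, 2 ^ (k + 1) :=
        Finset.sum_le_sum fun σ _ => card_exchange P k hij h1 h2 e rfl σ
    _ = 2 ^ (k + 1) * Fintype.card (Asg m J B n) := by
        rw [Finset.sum_const, Finset.card_univ, smul_eq_mul, mul_comm]

/-- some pair of clusters is not covered -/
def BadA (P : Fin n → Prog) (k : ℕ) (σ : Asg m J B n) : Prop :=
  ∃ i j : Fin m, i ≠ j ∧ ∃ t s, t ≤ s ∧ s < k ∧ BP P k i j t s σ

open Classical in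
theorem card_BadA (P : Fin n → Prog) (k : ℕ) (hJ : J = tri k) :
    (B + 1) * (Finset.univ.filter fun σ : Asg m J B n => BadA P k σ).card ≤
      m ^ 2 * k ^ 2 * 2 ^ (k + 1) * Fintype.card (Asg m J B n) := by
  have hsub : (Finset.univ.filter fun σ : Asg m J B n => BadA P k σ) ⊆
      (Finset.univ : Finset ((Fin m × Fin m) × (Fin k × Fin k))).biUnion fun z =>
        Finset.univ.filter fun σ : Asg m J B n =>
          z.1.1 ≠ z.1.2 ∧ (z.2.1 : ℕ) ≤ z.2.2 ∧ BP P k z.1.1 z.1.2 z.2.1 z.2.2 σ := by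
    intro σ hσ
    obtain ⟨i, j, hij, t, s, h1, h2, h3⟩ := (Finset.mem_filter.1 hσ).2
    refine Finset.mem_biUnion.2 ⟨((i, j), (⟨t, by omega⟩, ⟨s, h2⟩)), Finset.mem_univ _, ?_⟩
    exact Finset.mem_filter.2 ⟨Finset.mem_univ _, hij, h1, h3⟩
  have hone : ∀ z : (Fin m × Fin m) × (Fin k × Fin k),
      (B + 1) * (Finset.univ.filter fun σ : Asg m J B n =>
          z.1.1 ≠ z.1.2 ∧ (z.2.1 : ℕ) ≤ z.2.2 ∧ BP P k z.1.1 z.1.2 z.2.1 z.2.2 σ).card ≤
        2 ^ (k + 1) * Fintype.card (Asg m J B n) := by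
    rintro ⟨⟨i, j⟩, ⟨t, s⟩⟩
    simp only
    by_cases hij : i ≠ j
    · by_cases hts : (t : ℕ) ≤ s
      · have hlt : ee k t s < J := by
          rw [hJ]
          have h4 := ee_le (k := k) (t := t) (s := s + 1) t.2 s.2
          rw [ee_succ hts] at h4
          exact h4
        refine le_trans (Nat.mul_le_mul_left _ (Finset.card_le_card ?_))
          (card_BP P k hij hts s.2 hlt)
        intro σ hσ
        exact Finset.mem_filter.2 ⟨Finset.mem_univ _, (Finset.mem_filter.1 hσ).2.2.2⟩
      · have : (Finset.univ.filter fun σ : Asg m J B n =>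
          i ≠ j ∧ (t : ℕ) ≤ s ∧ BP P k i j t s σ) = ∅ := by
          rw [Finset.filter_eq_empty_iff]
          rintro σ _ ⟨_, h, _⟩
          exact hts h
        rw [this]
        simp
    · have : (Finset.univ.filter fun σ : Asg m J B n =>
          i ≠ j ∧ (t : ℕ) ≤ s ∧ BP P k i j t s σ) = ∅ := by
        rw [Finset.filter_eq_empty_iff]
        rintro σ _ ⟨h, _⟩
        exact hij h
      rw [this]
      simp
  calc (B + 1) * (Finset.univ.filter fun σ : Asg m J B n => BadA P k σ).card
      ≤ (B + 1) * ∑ z : (Fin m × Fin m) × (Fin k × Fin k),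
          (Finset.univ.filter fun σ : Asg m J B n =>
            z.1.1 ≠ z.1.2 ∧ (z.2.1 : ℕ) ≤ z.2.2 ∧ BP P k z.1.1 z.1.2 z.2.1 z.2.2 σ).card :=
        Nat.mul_le_mul_left _ ((Finset.card_le_card hsub).trans Finset.card_biUnion_le)
    _ = ∑ z : (Fin m × Fin m) × (Fin k × Fin k), (B + 1) *
          (Finset.univ.filter fun σ : Asg m J B n =>
            z.1.1 ≠ z.1.2 ∧ (z.2.1 : ℕ) ≤ z.2.2 ∧ BP P k z.1.1 z.1.2 z.2.1 z.2.2 σ).card := by
        rw [Finset.mul_sum]
    _ ≤ ∑ _z : (Fin m × Fin m) × (Fin k × Fin k),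
          2 ^ (k + 1) * Fintype.card (Asg m J B n) := Finset.sum_le_sum fun z _ => hone z
    _ = m ^ 2 * k ^ 2 * 2 ^ (k + 1) * Fintype.card (Asg m J B n) := by
        rw [Finset.sum_const, Finset.card_univ, smul_eq_mul, Fintype.card_prod, Fintype.card_prod,
          Fintype.card_prod, Fintype.card_fin, Fintype.card_fin]
        ring

/-- If no pair of clusters is bad, few roots have output within `k` steps. -/
theorem few_good {P : Fin n → Prog} {u : Fin n → ℕ} (hu : Function.Injective u) (hP : Good P u)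
    (k : ℕ) {σ : Asg m J B n} (hσ : ¬ BadA P k σ) (S : Finset (Fin m))
    (hS : ∀ i ∈ S, ((run P (pre (US k (cl σ i)) k)).hist (cl σ i 0)).length < k) :
    S.card ≤ (2 ^ k) ^ 2 ^ (k + 1) := by
  by_contra hcon
  push Not at hcon
  have hcard : Fintype.card (Fin k → Bool) = 2 ^ k := by simp
  obtain ⟨i, hi, j, hj, hij, h⟩ := kraft S (fun i => Acc P (US k (cl σ i)) k (cl σ i 0))
    (fun i r => fun s : Fin k => decide (r ∈ (nd P (US k (cl σ i)) k (cl σ i 0) s).W))
    (2 ^ (k + 1)) (fun i _ => (chain_US (cl σ i)).card_Acc_le P) (by rw [hcard]; exact hcon)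
  have hcov : ∀ {i j : Fin m}, i ≠ j →
      ∀ r ∈ Acc P (US k (cl σ j)) k (cl σ j 0), Covered P (US k (cl σ i)) k r := by
    intro i j hij r hr
    refine covered_of_not_Bd ?_
    intro t s h1 h2 hbd
    exact hσ ⟨i, j, hij, t, s, h1, h2, r, hr, hbd⟩
  refine no_compatible hu hP (chain_US (cl σ i)) (chain_US (cl σ j)) (cl_disjoint σ hij)
    (Finset.mem_image_of_mem _ (Finset.mem_univ _)) (Finset.mem_image_of_mem _ (Finset.mem_univ _))
    (US_subset _) (US_subset _) (hcov hij) (hcov hij.symm) ?_ (hS i hi) (hS j hj)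
  intro r hr hr' s hs
  have h1 := congrFun (h r hr hr') ⟨s, hs⟩
  simpa only [decide_eq_decide] using h1

end

end Pool.Agent.Lib.MP_2ab09f_lc.LB
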