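import Mathlib
import Pool.Agent.Lib.MP_2ab09f_lc.LB.Exch
import Pool.Agent.Lib.MP_2ab09f_lc.Main

/-!
Randomized id consensus: the worst-case expected number of steps per processor is at least of
the order of `log log n`.
-/

open MeasureTheory
open scoped ENNReal

namespace Pool.Agent.Lib.MP_2ab09f_lc.LB

open Pool.Agent.Lib.MP_2ab09f_lc

section

variable {n m J B : ℕ}

/-- the number of steps of the root of cluster `i` -/
noncomputable def len (P : Fin n → Prog) (k : ℕ) (σ : Asg m J B n) (i : Fin m) : ℕ :=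
  ((run P (pre (US k (cl σ i)) k)).hist (cl σ i 0)).length

/-- The pointwise inequality: on the average over the assignments, many roots take `k` steps. -/
theorem pointwise {P : Fin n → Prog} {u : Fin n → ℕ} (hu : Function.Injective u) (hP : Good P u)
    {k H : ℕ} (hk : 0 < k) (hH : H = (2 ^ k) ^ 2 ^ (k + 1)) (hm : m = 2 * H)
    (hB : B + 1 = 4 * (m ^ 2 * k ^ 2 * 2 ^ (k + 1))) (hJ : J = tri k) :
    3 * k * H * Fintype.card (Asg m J B n) ≤
      4 * ∑ σ : Asg m J B n, ∑ i : Fin m, len P k σ i := by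
  classical
  have hH0 : 0 < H := by rw [hH]; positivity
  have hm0 : 0 < m := by omega
  set N := Fintype.card (Asg m J B n) with hN
  set bad := Finset.univ.filter fun σ : Asg m J B n => BadA P k σ with hbad
  have h1 : 4 * bad.card ≤ N := by
    have h2 := card_BadA (n := n) (m := m) (B := B) P k hJ
    have h3 : 0 < m ^ 2 * k ^ 2 * 2 ^ (k + 1) := by positivity
    refine Nat.le_of_mul_le_mul_left ?_ h3
    calc m ^ 2 * k ^ 2 * 2 ^ (k + 1) * (4 * bad.card)
        = 4 * (m ^ 2 * k ^ 2 * 2 ^ (k + 1)) * bad.card := by ring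
      _ = (B + 1) * bad.card := congrArg (fun x => x * bad.card) hB.symm
      _ ≤ _ := h2
  have h2 : ∀ σ : Asg m J B n, σ ∉ bad → k * H ≤ ∑ i : Fin m, len P k σ i := by
    intro σ hσ
    have hσ' : ¬ BadA P k σ := by
      intro h
      exact hσ (Finset.mem_filter.2 ⟨Finset.mem_univ _, h⟩)
    have h3 := few_good hu hP k hσ' (Finset.univ.filter fun i => len P k σ i < k)
      (fun i hi => (Finset.mem_filter.1 hi).2)
    rw [← hH] at h3
    have h4 := Finset.card_filter_add_card_filter_not (s := (Finset.univ : Finset (Fin m)))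
      (fun i => len P k σ i < k)
    rw [Finset.card_univ, Fintype.card_fin] at h4
    have h5 : H ≤ (Finset.univ.filter fun i : Fin m => ¬ len P k σ i < k).card := by omega
    calc k * H ≤ k * (Finset.univ.filter fun i : Fin m => ¬ len P k σ i < k).card :=
          Nat.mul_le_mul_left _ h5
      _ = ∑ _i ∈ Finset.univ.filter fun i : Fin m => ¬ len P k σ i < k, k := by
          rw [Finset.sum_const, smul_eq_mul, mul_comm]
      _ ≤ ∑ i ∈ Finset.univ.filter fun i : Fin m => ¬ len P k σ i < k, len P k σ i := by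
          refine Finset.sum_le_sum fun i hi => ?_
          have := (Finset.mem_filter.1 hi).2
          omega
      _ ≤ ∑ i : Fin m, len P k σ i :=
          Finset.sum_le_sum_of_subset (Finset.filter_subset _ _)
  have h3 : (N - bad.card) * (k * H) ≤ ∑ σ : Asg m J B n, ∑ i : Fin m, len P k σ i := by
    have h4 : (badᶜ).card = N - bad.card := by
      rw [Finset.card_compl]
    rw [← h4, ← smul_eq_mul, ← Finset.sum_const]
    calc ∑ _σ ∈ badᶜ, k * H ≤ ∑ σ ∈ badᶜ, ∑ i : Fin m, len P k σ i :=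
          Finset.sum_le_sum fun σ hσ => h2 σ (Finset.mem_compl.1 hσ)
      _ ≤ _ := Finset.sum_le_sum_of_subset (Finset.subset_univ _)
  have h4 : 3 * N ≤ 4 * (N - bad.card) := by omega
  calc 3 * k * H * N = 3 * N * (k * H) := by ring
    _ ≤ 4 * (N - bad.card) * (k * H) := Nat.mul_le_mul_right _ h4
    _ = 4 * ((N - bad.card) * (k * H)) := by ring
    _ ≤ _ := Nat.mul_le_mul_left _ h3

end

theorem main_aux (C k : ℕ) (hk : k = 3 * (C + 1)) {n m J B H : ℕ}
    (hH : H = (2 ^ k) ^ 2 ^ (k + 1)) (hm : m = 2 * H)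
    (hB : B + 1 = 4 * (m ^ 2 * k ^ 2 * 2 ^ (k + 1))) (hJ : J = tri k)
    (hn : m * (B + 1) ^ J ≤ n) {Ω : Type*} [MeasurableSpace Ω] (μ : Measure Ω)
    [IsProbabilityMeasure μ] (A : Alg n Ω) (hA : A.Correct μ) (u : Fin n → ℕ)
    (hu : Function.Injective u) :
    ∃ (L : List (Fin n)) (p : Fin n), (C : ℝ≥0∞) < A.expSteps μ u L p := by
  classical
  by_contra hcon
  push Not at hcon
  have hk0 : 0 < k := by omega
  have hH0 : 0 < H := by rw [hH]; positivity
  set N := Fintype.card (Asg m J B n) with hN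
  have hN0 : 0 < N := by
    rw [hN, Fintype.card_pos_iff]
    refine Function.Embedding.nonempty_of_card_le ?_
    rw [Fintype.card_prod, Fintype.card_fin, Fintype.card_fun, Fintype.card_fin, Fintype.card_fin,
      Fintype.card_fin]
    exact hn
  have hpt : ∀ᵐ ω ∂μ, ((3 * k * H * N : ℕ) : ℝ≥0∞) ≤
      4 * ∑ σ : Asg m J B n, ∑ i : Fin m, (len (A.at u ω) k σ i : ℝ≥0∞) := by
    filter_upwards [ae_good A μ hA u hu] with ω hω
    have h1 := pointwise (m := m) (J := J) (B := B) hu hω hk0 hH hm hB hJ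
    have h2 : ((3 * k * H * N : ℕ) : ℝ≥0∞) ≤
        ((4 * ∑ σ : Asg m J B n, ∑ i : Fin m, len (A.at u ω) k σ i : ℕ) : ℝ≥0∞) := by
      exact_mod_cast h1
    refine h2.trans (le_of_eq ?_)
    push_cast
    rfl
  have hmeas : ∀ (σ : Asg m J B n) (i : Fin m),
      Measurable fun ω => (len (A.at u ω) k σ i : ℝ≥0∞) :=
    fun σ i => measurable_length A u _ _
  have hint : ((3 * k * H * N : ℕ) : ℝ≥0∞) ≤ ((4 * (N * (m * C)) : ℕ) : ℝ≥0∞) := by
    calc ((3 * k * H * N : ℕ) : ℝ≥0∞) = ∫⁻ _ω, ((3 * k * H * N : ℕ) : ℝ≥0∞) ∂μ := by simp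
      _ ≤ ∫⁻ ω, 4 * ∑ σ : Asg m J B n, ∑ i : Fin m, (len (A.at u ω) k σ i : ℝ≥0∞) ∂μ :=
          lintegral_mono_ae hpt
      _ = 4 * ∑ σ : Asg m J B n, ∑ i : Fin m,
            ∫⁻ ω, (len (A.at u ω) k σ i : ℝ≥0∞) ∂μ := by
          rw [lintegral_const_mul' _ _ (by norm_num), lintegral_finsetSum]
          · congr 1
            refine Finset.sum_congr rfl fun σ _ => ?_
            rw [lintegral_finsetSum]
            exact fun i _ => hmeas σ i
          · exact fun σ _ => Finset.measurable_fun_sum _ fun i _ => hmeas σ i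
      _ ≤ 4 * ∑ _σ : Asg m J B n, ∑ _i : Fin m, (C : ℝ≥0∞) := by
          gcongr with σ _ i _
          exact hcon _ _
      _ = ((4 * (N * (m * C)) : ℕ) : ℝ≥0∞) := by
          rw [Finset.sum_const, Finset.sum_const, Finset.card_univ, Finset.card_univ,
            Fintype.card_fin, nsmul_eq_mul, nsmul_eq_mul, hN]
          push_cast
          rfl
  have h1 : 3 * k * H * N ≤ 4 * (N * (m * C)) := by exact_mod_cast hint
  have h2 : (3 * k) * (H * N) ≤ (8 * C) * (H * N) := by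
    calc (3 * k) * (H * N) = 3 * k * H * N := by ring
      _ ≤ 4 * (N * (m * C)) := h1
      _ = (8 * C) * (H * N) := by rw [hm]; ring
  have h3 := Nat.le_of_mul_le_mul_right h2 (Nat.mul_pos hH0 hN0)
  omega

/-! ### Explicit bounds -/

theorem sq_le_two_pow {k : ℕ} (hk : 3 ≤ k) : k ^ 2 ≤ 2 ^ k + 1 ∧ 2 * k ≤ 2 ^ k := by
  induction k, hk using Nat.le_induction with
  | base => norm_num
  | succ k hk ih =>
    rw [pow_succ 2 k]
    constructor
    · nlinarith [ih.1, ih.2]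
    · omega

theorem exponent_bound {k : ℕ} (hk : 3 ≤ k) :
    (k * 2 ^ (k + 1) + 1) + (2 * (k * 2 ^ (k + 1) + 1) + 3 * k + 3) * k ^ 2 ≤ 2 ^ (4 * k) := by
  obtain ⟨h1, h2⟩ := sq_le_two_pow hk
  have h3 : 2 ^ (4 * k) = (2 ^ k) ^ 4 := by rw [← pow_mul, mul_comm]
  have h4 : 8 ≤ 2 ^ k := by
    calc 8 = 2 ^ 3 := by norm_num
      _ ≤ 2 ^ k := Nat.pow_le_pow_right (by norm_num) hk
  rw [h3, pow_succ 2 k]
  generalize 2 ^ k = x at h1 h2 h4 ⊢
  have h5 : k * (x * 2) ≤ x * x := by nlinarith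
  have h6 : (2 * (k * (x * 2) + 1) + 3 * k + 3) ≤ 2 * (x * x) + 2 * x + 5 := by omega
  calc (k * (x * 2) + 1) + (2 * (k * (x * 2) + 1) + 3 * k + 3) * k ^ 2
      ≤ (x * x + 1) + (2 * (x * x) + 2 * x + 5) * (x + 1) :=
        Nat.add_le_add (by omega) (Nat.mul_le_mul h6 h1)
    _ = 2 * x ^ 3 + 5 * x ^ 2 + 7 * x + 6 := by ring
    _ ≤ x ^ 4 := by
        have h7 : 8 * x ^ 3 ≤ x ^ 4 := by
          calc 8 * x ^ 3 ≤ x * x ^ 3 := Nat.mul_le_mul_right _ h4
            _ = x ^ 4 := by ring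
        have h8 : 8 * x ^ 2 ≤ x ^ 3 := by
          calc 8 * x ^ 2 ≤ x * x ^ 2 := Nat.mul_le_mul_right _ h4
            _ = x ^ 3 := by ring
        have h9 : 8 * x ≤ x ^ 2 := by
          calc 8 * x ≤ x * x := Nat.mul_le_mul_right _ h4
            _ = x ^ 2 := by ring
        omega

/-- **Main theorem.** Explicit lower bound of order `log log n`. -/
theorem main (C n : ℕ) (hn : 2 ^ 2 ^ (12 * (C + 1)) ≤ n) {Ω : Type*} [MeasurableSpace Ω]
    (μ : Measure Ω) [IsProbabilityMeasure μ] (A : Alg n Ω) (hA : A.Correct μ) (u : Fin n → ℕ)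
    (hu : Function.Injective u) :
    ∃ (L : List (Fin n)) (p : Fin n), (C : ℝ≥0∞) < A.expSteps μ u L p := by
  obtain ⟨k, hk⟩ : ∃ k, k = 3 * (C + 1) := ⟨_, rfl⟩
  have hk3 : 3 ≤ k := by omega
  obtain ⟨H, hH⟩ : ∃ H, H = (2 ^ k) ^ 2 ^ (k + 1) := ⟨_, rfl⟩
  obtain ⟨m, hm⟩ : ∃ m, m = 2 * H := ⟨_, rfl⟩
  have hpos : 0 < 4 * (m ^ 2 * k ^ 2 * 2 ^ (k + 1)) := by
    have : 0 < H := by rw [hH]; positivity
    have : 0 < m := by omega
    positivity
  obtain ⟨B, hB⟩ : ∃ B, B + 1 = 4 * (m ^ 2 * k ^ 2 * 2 ^ (k + 1)) :=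
    ⟨4 * (m ^ 2 * k ^ 2 * 2 ^ (k + 1)) - 1, by omega⟩
  refine main_aux C k hk hH hm hB rfl ?_ μ A hA u hu
  have hm2 : m = 2 ^ (k * 2 ^ (k + 1) + 1) := by
    rw [hm, hH, ← pow_mul, pow_succ]
    ring
  have hk2 : k ^ 2 ≤ 2 ^ (2 * k) := by
    rw [mul_comm, pow_mul]
    exact Nat.pow_le_pow_left (Nat.lt_two_pow_self).le 2
  have hB2 : B + 1 ≤ 2 ^ (2 * (k * 2 ^ (k + 1) + 1) + 3 * k + 3) := by
    rw [hB, hm2]
    calc 4 * ((2 ^ (k * 2 ^ (k + 1) + 1)) ^ 2 * k ^ 2 * 2 ^ (k + 1))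
        ≤ 4 * ((2 ^ (k * 2 ^ (k + 1) + 1)) ^ 2 * 2 ^ (2 * k) * 2 ^ (k + 1)) := by gcongr
      _ = 2 ^ (2 * (k * 2 ^ (k + 1) + 1) + 3 * k + 3) := by
          rw [← pow_mul, ← pow_add, ← pow_add, show (4 : ℕ) = 2 ^ 2 by norm_num, ← pow_add]
          congr 1
          ring
  calc m * (B + 1) ^ tri k
      ≤ m * (B + 1) ^ (k ^ 2) :=
        Nat.mul_le_mul_left _ (Nat.pow_le_pow_right (Nat.succ_pos B) (tri_le k))
    _ ≤ 2 ^ (k * 2 ^ (k + 1) + 1) *
          (2 ^ (2 * (k * 2 ^ (k + 1) + 1) + 3 * k + 3)) ^ (k ^ 2) := by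
        rw [← hm2]
        exact Nat.mul_le_mul_left _ (Nat.pow_le_pow_left hB2 _)
    _ = 2 ^ ((k * 2 ^ (k + 1) + 1) + (2 * (k * 2 ^ (k + 1) + 1) + 3 * k + 3) * k ^ 2) := by
        rw [← pow_mul, ← pow_add]
    _ ≤ 2 ^ 2 ^ (4 * k) := Nat.pow_le_pow_right (by norm_num) (exponent_bound hk3)
    _ ≤ n := by
        rw [hk, show 4 * (3 * (C + 1)) = 12 * (C + 1) by ring]
        exact hn

end Pool.Agent.Lib.MP_2ab09f_lc.LB
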